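import Mathlib

/-! Sums over the characters which are trivial on a subgroup. -/

set_option autoImplicit false

namespace Pool.Agent.H40AB

open Finset

section
variable {f : ℕ} [NeZero f]

/-- `χ` is trivial on `H` -/
def TrivialOn (H : Subgroup (ZMod f)ˣ) (χ : DirichletCharacter ℂ f) : Prop :=
  ∀ h ∈ H, χ (h : ZMod f) = 1

open Classical in
/-- the characters trivial on `H` -/
noncomputable def XH (H : Subgroup (ZMod f)ˣ) : Finset (DirichletCharacter ℂ f) :=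
  univ.filter (TrivialOn H)

omit [NeZero f] in
theorem mem_XH {H : Subgroup (ZMod f)ˣ} {χ : DirichletCharacter ℂ f} :
    χ ∈ XH H ↔ ∀ h ∈ H, χ (h : ZMod f) = 1 := by
  classical
  unfold XH
  rw [mem_filter]
  exact ⟨fun h => h.2, fun h => ⟨mem_univ _, h⟩⟩

open Classical in
theorem sum_sub (H : Subgroup (ZMod f)ˣ) (χ : DirichletCharacter ℂ f) :
    ∑ h : H, χ ((h : (ZMod f)ˣ) : ZMod f) = if χ ∈ XH H then (Nat.card H : ℂ) else 0 := by
  split_ifs with h
  · rw [mem_XH] at h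
    rw [sum_congr rfl fun (x : H) _ => h (x : (ZMod f)ˣ) x.2, sum_const, card_univ, nsmul_eq_mul, mul_one,
      Nat.card_eq_fintype_card]
  · rw [mem_XH] at h
    push Not at h
    obtain ⟨g, hg, hne⟩ := h
    have h1 : χ (g : ZMod f) * ∑ h : H, χ ((h : (ZMod f)ˣ) : ZMod f) =
        ∑ h : H, χ ((h : (ZMod f)ˣ) : ZMod f) := by
      rw [mul_sum]
      refine Fintype.sum_equiv (Equiv.mulLeft (⟨g, hg⟩ : H)) _ _ fun x => ?_
      rw [← map_mul]
      rfl
    have h2 : (χ (g : ZMod f) - 1) * ∑ h : H, χ ((h : (ZMod f)ˣ) : ZMod f) = 0 := by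
      rw [sub_mul, h1, one_mul, sub_self]
    rcases mul_eq_zero.1 h2 with h3 | h3
    · exact absurd (sub_eq_zero.1 h3) hne
    · exact h3

open Classical in
/-- **The sum over the characters trivial on `H`.** -/
theorem sum_XH (H : Subgroup (ZMod f)ˣ) (x : (ZMod f)ˣ) :
    ∑ χ ∈ XH H, χ (x : ZMod f) = if x ∈ H then (Nat.card (ZMod f)ˣ : ℂ) / Nat.card H else 0 := by
  have hH : (Nat.card H : ℂ) ≠ 0 := by
    have : Nat.card H ≠ 0 := Nat.card_pos.ne'
    exact_mod_cast this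
  have h1 : (Nat.card H : ℂ) * ∑ χ ∈ XH H, χ (x : ZMod f) =
      ∑ h : H, ∑ χ : DirichletCharacter ℂ f, χ (((h : (ZMod f)ˣ) * x : (ZMod f)ˣ) : ZMod f) := by
    rw [sum_comm]
    have h2 : ∀ χ : DirichletCharacter ℂ f,
        ∑ h : H, χ (((h : (ZMod f)ˣ) * x : (ZMod f)ˣ) : ZMod f) =
          if χ ∈ XH H then (Nat.card H : ℂ) * χ (x : ZMod f) else 0 := by
      intro χ
      have h3 : ∀ h : H, χ (((h : (ZMod f)ˣ) * x : (ZMod f)ˣ) : ZMod f) =
          χ ((h : (ZMod f)ˣ) : ZMod f) * χ (x : ZMod f) := fun h => by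
        rw [Units.val_mul, map_mul]
      rw [sum_congr rfl fun h _ => h3 h, ← sum_mul, sum_sub]
      split_ifs <;> ring
    rw [sum_congr rfl fun χ _ => h2 χ, ← sum_filter, mul_sum]
    refine sum_congr ?_ fun _ _ => rfl
    ext χ
    rw [mem_filter]
    exact ⟨fun h => ⟨mem_univ _, h⟩, fun h => h.2⟩
  have h2 : ∀ h : H, ∑ χ : DirichletCharacter ℂ f, χ (((h : (ZMod f)ˣ) * x : (ZMod f)ˣ) : ZMod f) =
      if (h : (ZMod f)ˣ) = x⁻¹ then (Nat.card (ZMod f)ˣ : ℂ) else 0 := by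
    intro h
    rw [DirichletCharacter.sum_characters_eq, Nat.card_eq_fintype_card, ZMod.card_units_eq_totient]
    refine if_congr ?_ rfl rfl
    rw [Units.val_eq_one, mul_eq_one_iff_eq_inv]
  rw [sum_congr rfl fun h _ => h2 h] at h1
  by_cases hx : x ∈ H
  · rw [if_pos hx, eq_div_iff hH, mul_comm, h1,
      Finset.sum_eq_single (⟨x⁻¹, H.inv_mem hx⟩ : H)]
    · rw [if_pos rfl]
    · intro b _ hb
      rw [if_neg]
      intro h
      exact hb (Subtype.ext h)
    · intro h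
      exact absurd (mem_univ _) h
  · rw [if_neg hx]
    have h4 : ∑ h : H, (if (h : (ZMod f)ˣ) = x⁻¹ then (Nat.card (ZMod f)ˣ : ℂ) else 0) = 0 := by
      refine Finset.sum_eq_zero fun h _ => ?_
      rw [if_neg]
      intro h3
      exact hx (by rw [← inv_inv x, ← h3]; exact H.inv_mem h.2)
    rw [h4] at h1
    rcases mul_eq_zero.1 h1 with h3 | h3
    · exact absurd h3 hH
    · exact h3

theorem card_XH (H : Subgroup (ZMod f)ˣ) :
    ((XH H).card : ℝ) = (Nat.card (ZMod f)ˣ : ℝ) / Nat.card H := by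
  have h1 := sum_XH H 1
  rw [if_pos H.one_mem] at h1
  have h2 : ∀ χ : DirichletCharacter ℂ f, χ (((1 : (ZMod f)ˣ)) : ZMod f) = 1 := fun χ => by
    rw [Units.val_one, map_one]
  rw [sum_congr rfl fun χ _ => h2 χ, sum_const, nsmul_eq_mul, mul_one] at h1
  have h3 : (((XH H).card : ℝ) : ℂ) = (((Nat.card (ZMod f)ˣ : ℝ) / Nat.card H : ℝ) : ℂ) := by
    push_cast
    exact h1
  exact Complex.ofReal_injective h3

theorem XH_anti {H G : Subgroup (ZMod f)ˣ} (h : H ≤ G) : XH G ⊆ XH H := fun χ hχ => by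
  rw [mem_XH] at hχ ⊢
  exact fun g hg => hχ g (h hg)

open Classical in
/-- the characters trivial on `H` but not on `G` -/
theorem sum_sdiff_XH {H G : Subgroup (ZMod f)ˣ} (h : H ≤ G) (x : (ZMod f)ˣ) (hx : x ∈ G) :
    ((Nat.card G : ℂ) / Nat.card (ZMod f)ˣ) * ∑ χ ∈ XH H \ XH G, χ (x : ZMod f) =
      (if x ∈ H then (Nat.card G : ℂ) / Nat.card H else 0) - 1 := by
  have hG : (Nat.card G : ℂ) ≠ 0 := by
    have : Nat.card G ≠ 0 := Nat.card_pos.ne'
    exact_mod_cast this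
  have hU : (Nat.card (ZMod f)ˣ : ℂ) ≠ 0 := by
    have : Nat.card (ZMod f)ˣ ≠ 0 := Nat.card_pos.ne'
    exact_mod_cast this
  have h1 : ∑ χ ∈ XH H \ XH G, χ (x : ZMod f) =
      ∑ χ ∈ XH H, χ (x : ZMod f) - ∑ χ ∈ XH G, χ (x : ZMod f) := by
    rw [eq_sub_iff_add_eq, sum_sdiff (XH_anti h)]
  rw [h1, sum_XH, sum_XH, if_pos hx, mul_sub]
  have h2 : (Nat.card G : ℂ) / Nat.card (ZMod f)ˣ * ((Nat.card (ZMod f)ˣ : ℂ) / Nat.card G) = 1 := by
    field_simp
  rw [h2]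
  congr 1
  split_ifs
  · field_simp
  · ring

end

end Pool.Agent.H40AB
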