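import Pool.Agent.H40AB.LS
import Pool.Agent.H40SY.SS

/-! The number of the exceptional characters. -/

set_option autoImplicit false

namespace Pool.Agent.H40AB

open Finset
open Pool.Agent.H40SY (PP mem_PP)
open scoped Nat

theorem card_PP (T : ℕ) : (PP T).card ≤ T := by
  have h1 : PP T ⊆ Icc 1 T := fun p hp => by
    rw [mem_PP] at hp
    exact mem_Icc.2 ⟨hp.2.pos, hp.1⟩
  have h2 := card_le_card h1
  rwa [Nat.card_Icc, Nat.add_sub_cancel] at h2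

theorem fac_le (r : ℕ) : (r + 1)! ≤ (r + 1) ^ r := by
  induction r with
  | zero => simp
  | succ n ih =>
    rw [Nat.factorial_succ, pow_succ, mul_comm]
    refine Nat.mul_le_mul_right _ (ih.trans ?_)
    exact Nat.pow_le_pow_left (by omega) _

/-- one sum -/
theorem bad_count (k : ℕ) (hk : 2 ≤ k) (C F t : ℕ) (L : ℝ) (hL : L = Real.log F) (hLe : Real.exp 1 ≤ L)
    (ht : L ^ 2 ≤ t) (x : ℝ) (hx : x = (F : ℝ) ^ ((k : ℝ)⁻¹)) (htC : (t : ℝ) ≤ x ^ C)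
    (w : ℕ → ℝ) (hw : ∀ q ∈ PP (t ^ k), |w q| ≤ 1) :
    ((bad (PP (t ^ k)) w ((t : ℝ) ^ (k - 1)) F).card : ℝ) ≤ 12 * x ^ (5 + 2 * C) := by
  have he : (2 : ℝ) ≤ Real.exp 1 := by
    have := Real.add_one_le_exp (1 : ℝ)
    linarith
  have hL2 : 2 ≤ L := he.trans hLe
  have hF0 : F ≠ 0 := by
    rintro rfl
    rw [Nat.cast_zero, Real.log_zero] at hL
    linarith
  have hF1 : 1 < F := by
    by_contra h
    have : F = 1 := by omega
    rw [this, Nat.cast_one, Real.log_one] at hL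
    linarith
  have hFR : (0 : ℝ) < F := by exact_mod_cast Nat.pos_of_ne_zero hF0
  have hx0 : 0 < x := by rw [hx]; positivity
  have hxk : x ^ k = F := by
    rw [hx]
    exact Real.rpow_inv_natCast_pow hFR.le (by omega)
  have ht4 : (4 : ℝ) ≤ t := by nlinarith
  have ht0 : (0 : ℝ) < t := by linarith
  have ht2 : 2 ≤ t := by
    have : (2 : ℝ) ≤ t := by linarith
    exact_mod_cast this
  have hlogL : 1 ≤ Real.log L := by
    rw [Real.le_log_iff_exp_le (by linarith)]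
    exact hLe
  have hlogt : 2 * Real.log L ≤ Real.log t := by
    have h1 : Real.log (L ^ 2) ≤ Real.log t := Real.log_le_log (by positivity) ht
    rw [Real.log_pow] at h1
    exact_mod_cast h1
  have hT2 : 2 ≤ t ^ k := by
    calc 2 ≤ t := ht2
      _ = t ^ 1 := (pow_one t).symm
      _ ≤ t ^ k := Nat.pow_le_pow_right (by omega) (by omega)
  have hex : ∃ r, F ^ 2 ≤ (t ^ k) ^ r := ⟨F ^ 2, (Nat.lt_pow_self (by omega)).le⟩
  classical
  obtain ⟨r, hr⟩ : ∃ r, r = Nat.find hex := ⟨_, rfl⟩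
  have hr1 : F ^ 2 ≤ (t ^ k) ^ r := by rw [hr]; exact Nat.find_spec hex
  have hr0 : r ≠ 0 := by
    intro h
    rw [h, pow_zero] at hr1
    nlinarith
  obtain ⟨s, rfl⟩ : ∃ s, r = s + 1 := ⟨r - 1, by omega⟩
  have hs : (t ^ k) ^ s < F ^ 2 := by
    by_contra h
    have := Nat.find_min' hex (not_lt.1 h)
    omega
  have hsR : ((t : ℝ) ^ k) ^ s < (F : ℝ) ^ 2 := by exact_mod_cast hs
  -- the powers of `t`
  have hts : (t : ℝ) ^ s ≤ x ^ 2 := by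
    have h1 : ((t : ℝ) ^ s) ^ k < (x ^ 2) ^ k := by
      rw [pow_right_comm, pow_right_comm x 2 k, hxk]
      exact hsR
    exact (lt_of_pow_lt_pow_left₀ k (by positivity) h1).le
  -- the factorial
  have hfac : ((s + 1)! : ℝ) ≤ x := by
    have h1 : (s : ℝ) * (k * Real.log t) ≤ 2 * L := by
      have h2 := Real.log_lt_log (by positivity) hsR
      rw [Real.log_pow, Real.log_pow, Real.log_pow, ← hL] at h2
      push_cast at h2
      linarith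
    have hkR : (2 : ℝ) ≤ k := by exact_mod_cast hk
    have hs0 : (0 : ℝ) ≤ s := Nat.cast_nonneg _
    have h2 : (s : ℝ) * (k * Real.log L) ≤ L := by
      have h3 : (s : ℝ) * (k * (2 * Real.log L)) ≤ (s : ℝ) * (k * Real.log t) :=
        mul_le_mul_of_nonneg_left (mul_le_mul_of_nonneg_left hlogt (by linarith)) hs0
      nlinarith
    have h3 : (s : ℝ) ≤ L / 2 := by
      have h4 : (s : ℝ) * (2 * 1) ≤ (s : ℝ) * (k * Real.log L) :=
        mul_le_mul_of_nonneg_left (mul_le_mul hkR hlogL (by norm_num) (by linarith)) hs0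
      linarith
    have h4 : ((s + 1 : ℕ) : ℝ) ≤ L := by
      push_cast
      linarith
    have h5 : ((s + 1)! : ℝ) ≤ L ^ s := by
      have h6 : ((s + 1)! : ℝ) ≤ ((s + 1 : ℕ) : ℝ) ^ s := by exact_mod_cast fac_le s
      exact h6.trans (pow_le_pow_left₀ (Nat.cast_nonneg _) h4 _)
    have h6 : L ^ s ≤ x := by
      have h7 : L ^ s = Real.exp (s * Real.log L) := by
        rw [← Real.log_pow, Real.exp_log (by positivity)]
      have h8 : x = Real.exp (L / k) := by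
        rw [hx, Real.rpow_def_of_pos hFR, ← hL]
        rfl
      rw [h7, h8, Real.exp_le_exp, le_div_iff₀ (by linarith)]
      linarith
    exact h5.trans h6
  -- the large sieve
  have hM : (0 : ℝ) < (t : ℝ) ^ (k - 1) := by positivity
  have h1 := card_bad (PP (t ^ k)) w hw (t ^ k) (s + 1) F ((t : ℝ) ^ (k - 1)) hM
    (fun q hq => ⟨(mem_PP.1 hq).2, (mem_PP.1 hq).1⟩) hr1
  have h2 : ((PP (t ^ k)).card : ℝ) ≤ (t : ℝ) ^ k := by exact_mod_cast card_PP (t ^ k)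
  have h3 : ((bad (PP (t ^ k)) w ((t : ℝ) ^ (k - 1)) F).card : ℝ) * ((t : ℝ) ^ (k - 1)) ^ (2 * (s + 1)) ≤
      12 * ((s + 1)! : ℝ) * ((t : ℝ) ^ s * t) ^ 2 * ((t : ℝ) ^ (k - 1)) ^ (2 * (s + 1)) := by
    refine h1.trans ?_
    have h4 : ((PP (t ^ k)).card : ℝ) ^ (s + 1) ≤ ((t : ℝ) ^ k) ^ (s + 1) :=
      pow_le_pow_left₀ (Nat.cast_nonneg _) h2 _
    have h5 : ((t : ℝ) ^ k) ^ (s + 1) * ((t : ℝ) ^ k) ^ (s + 1) =
        ((t : ℝ) ^ s * t) ^ 2 * ((t : ℝ) ^ (k - 1)) ^ (2 * (s + 1)) := by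
      obtain ⟨j, rfl⟩ : ∃ j, k = j + 1 := ⟨k - 1, by omega⟩
      rw [Nat.add_sub_cancel]
      ring
    push_cast
    calc 12 * ((t : ℝ) ^ k) ^ (s + 1) * ((s + 1)! : ℝ) * ((PP (t ^ k)).card : ℝ) ^ (s + 1)
        ≤ 12 * ((t : ℝ) ^ k) ^ (s + 1) * ((s + 1)! : ℝ) * ((t : ℝ) ^ k) ^ (s + 1) :=
          mul_le_mul_of_nonneg_left h4 (by positivity)
      _ = 12 * ((s + 1)! : ℝ) * (((t : ℝ) ^ k) ^ (s + 1) * ((t : ℝ) ^ k) ^ (s + 1)) := by ring
      _ = _ := by rw [h5]; ring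
  have h4 := le_of_mul_le_mul_right h3 (by positivity)
  refine h4.trans ?_
  calc 12 * ((s + 1)! : ℝ) * ((t : ℝ) ^ s * t) ^ 2 ≤ 12 * x * (x ^ 2 * x ^ C) ^ 2 := by
        apply mul_le_mul
        · exact mul_le_mul_of_nonneg_left hfac (by norm_num)
        · exact pow_le_pow_left₀ (by positivity) (mul_le_mul hts htC (by positivity) (by positivity)) 2
        · positivity
        · positivity
    _ = 12 * x ^ (5 + 2 * C) := by ring

/-- all sums over the primes up to the `k`-th powers -/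
theorem bad_union (k : ℕ) (hk : 2 ≤ k) (C F : ℕ) (L : ℝ) (hL : L = Real.log F) (hLe : Real.exp 1 ≤ L)
    (x : ℝ) (hx : x = (F : ℝ) ^ ((k : ℝ)⁻¹)) (W : ℕ → ℕ → ℕ → ℝ)
    (hW : ∀ t j, ∀ q ∈ PP (t ^ k), |W t j q| ≤ 1) :
    ∃ 𝓑 : Finset (Σ f : ℕ, DirichletCharacter ℂ f), (𝓑.card : ℝ) ≤ 12 * x ^ (6 + 3 * C) ∧
      ∀ (f : ℕ) (χ : DirichletCharacter ℂ f), 1 ≤ f → f ≤ F → χ.IsPrimitive → ⟨f, χ⟩ ∉ 𝓑 →
        ∀ t j : ℕ, L ^ 2 ≤ t → (t : ℝ) ≤ x ^ C → (j : ℝ) + 1 ≤ x →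
          ‖∑ q ∈ PP (t ^ k), (W t j q : ℂ) * χ (q : ZMod f)‖ ≤ (t : ℝ) ^ (k - 1) := by
  classical
  have hx0 : 0 ≤ x := by rw [hx]; positivity
  refine ⟨((((Icc 1 ⌊x ^ C⌋₊).filter fun t : ℕ => L ^ 2 ≤ (t : ℝ)) ×ˢ (range ⌊x⌋₊))).biUnion fun z =>
    bad (PP (z.1 ^ k)) (W z.1 z.2) ((z.1 : ℝ) ^ (k - 1)) F, ?_, ?_⟩
  · have h1 : ((((((Icc 1 ⌊x ^ C⌋₊).filter fun t : ℕ => L ^ 2 ≤ (t : ℝ)) ×ˢ (range ⌊x⌋₊))).biUnion fun z =>
        bad (PP (z.1 ^ k)) (W z.1 z.2) ((z.1 : ℝ) ^ (k - 1)) F).card : ℝ) ≤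
        ∑ z ∈ (((Icc 1 ⌊x ^ C⌋₊).filter fun t : ℕ => L ^ 2 ≤ (t : ℝ)) ×ˢ (range ⌊x⌋₊)),
          ((bad (PP (z.1 ^ k)) (W z.1 z.2) ((z.1 : ℝ) ^ (k - 1)) F).card : ℝ) := by
      exact_mod_cast card_biUnion_le
    refine h1.trans ?_
    refine (sum_le_sum (g := fun _ => 12 * x ^ (5 + 2 * C)) fun z hz => ?_).trans ?_
    · rw [mem_product, mem_filter, mem_Icc] at hz
      refine bad_count k hk C F z.1 L hL hLe hz.1.2 x hx ?_ _ (hW z.1 z.2)
      exact (Nat.le_floor_iff (by positivity)).1 hz.1.1.2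
    · rw [sum_const, card_product, card_range, nsmul_eq_mul]
      have h2 : ((((Icc 1 ⌊x ^ C⌋₊).filter fun t : ℕ => L ^ 2 ≤ (t : ℝ)).card : ℕ) : ℝ) ≤ x ^ C := by
        have h3 : ((Icc 1 ⌊x ^ C⌋₊).filter fun t : ℕ => L ^ 2 ≤ (t : ℝ)).card ≤ ⌊x ^ C⌋₊ := by
          refine (card_filter_le _ _).trans ?_
          rw [Nat.card_Icc, Nat.add_sub_cancel]
        exact (Nat.cast_le.2 h3).trans (Nat.floor_le (by positivity))
      have h3 : ((⌊x⌋₊ : ℕ) : ℝ) ≤ x := Nat.floor_le hx0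
      push_cast
      calc _ ≤ (x ^ C * x) * (12 * x ^ (5 + 2 * C)) := by
            apply mul_le_mul_of_nonneg_right _ (by positivity)
            exact mul_le_mul h2 h3 (Nat.cast_nonneg _) (by positivity)
        _ = 12 * x ^ (6 + 3 * C) := by ring
  · intro f χ hf1 hfF hprim hnot t j ht htC hj
    by_contra hbig
    rw [not_le] at hbig
    apply hnot
    rw [mem_biUnion]
    have he : (2 : ℝ) ≤ Real.exp 1 := by
      have := Real.add_one_le_exp (1 : ℝ)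
      linarith
    have ht1 : 1 ≤ t := by
      have : (1 : ℝ) ≤ t := by nlinarith
      exact_mod_cast this
    refine ⟨(t, j), ?_, ?_⟩
    · rw [mem_product, mem_filter, mem_Icc, mem_range]
      refine ⟨⟨⟨ht1, (Nat.le_floor_iff (by positivity)).2 htC⟩, ht⟩, ?_⟩
      show j < ⌊x⌋₊
      rw [← Nat.succ_le_iff, Nat.le_floor_iff hx0]
      push_cast
      exact hj
    · unfold bad
      rw [mem_sigma, mem_filter]
      exact ⟨mem_Icc.2 ⟨hf1, hfF⟩, mem_univ _, hprim, hbig⟩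

/-- between the `k`-th powers -/
theorem near_power (k : ℕ) (hk : 2 ≤ k) (T : ℕ) (hT : 1 ≤ T) : ∃ t : ℕ, t ^ k ≤ T ∧
    (t : ℝ) ^ (k - 1) ≤ (T : ℝ) ^ (1 - (k : ℝ)⁻¹) ∧ (T : ℝ) ^ ((k : ℝ)⁻¹) < t + 1 ∧
    (t : ℝ) ≤ (T : ℝ) ^ ((k : ℝ)⁻¹) ∧
    (T : ℝ) - (t : ℝ) ^ k ≤ k * 2 ^ (k - 1) * (T : ℝ) ^ (1 - (k : ℝ)⁻¹) := by
  have hT0 : (0 : ℝ) < T := by exact_mod_cast hT
  obtain ⟨z, hz⟩ : ∃ z : ℝ, z = (T : ℝ) ^ ((k : ℝ)⁻¹) := ⟨_, rfl⟩
  have hz1 : 1 ≤ z := by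
    rw [hz]
    exact Real.one_le_rpow (by exact_mod_cast hT) (by positivity)
  have hzk : z ^ k = T := by
    rw [hz]
    exact Real.rpow_inv_natCast_pow hT0.le (by omega)
  have hzk1 : z ^ (k - 1) = (T : ℝ) ^ (1 - (k : ℝ)⁻¹) := by
    rw [hz, ← Real.rpow_natCast, ← Real.rpow_mul hT0.le]
    congr 1
    have hk0 : (k : ℝ) ≠ 0 := by
      have : k ≠ 0 := by omega
      exact_mod_cast this
    rw [Nat.cast_sub (by omega)]
    push_cast
    field_simp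
  rw [← hz, ← hzk1]
  have h1 : ((⌊z⌋₊ : ℕ) : ℝ) ≤ z := Nat.floor_le (by linarith)
  have h2 : z < (⌊z⌋₊ : ℝ) + 1 := Nat.lt_floor_add_one z
  have h3 : 1 ≤ ⌊z⌋₊ := by
    rw [Nat.le_floor_iff (by linarith)]
    exact_mod_cast hz1
  have h3' : (1 : ℝ) ≤ (⌊z⌋₊ : ℝ) := by exact_mod_cast h3
  have h4 : ((⌊z⌋₊ : ℕ) : ℝ) ^ k ≤ T := by
    rw [← hzk]
    exact pow_le_pow_left₀ (by positivity) h1 k
  refine ⟨⌊z⌋₊, by exact_mod_cast h4, pow_le_pow_left₀ (by positivity) h1 _, h2, h1, ?_⟩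
  rw [← hzk]
  have h5 := abs_pow_sub_pow_le z (⌊z⌋₊ : ℝ) k
  rw [abs_of_nonneg (by linarith : 0 ≤ z - (⌊z⌋₊ : ℝ)), abs_of_nonneg (by linarith : 0 ≤ z),
    abs_of_nonneg (by linarith : (0 : ℝ) ≤ (⌊z⌋₊ : ℝ)), max_eq_left h1] at h5
  refine (le_abs_self _).trans (h5.trans ?_)
  have h6 : (1 : ℝ) ≤ 2 ^ (k - 1) := one_le_pow₀ (by norm_num)
  have h7 : 0 ≤ z ^ (k - 1) := by positivity
  have h8 : (z - (⌊z⌋₊ : ℝ)) * k ≤ k * 2 ^ (k - 1) := by
    have h9 : z - (⌊z⌋₊ : ℝ) ≤ 1 := by linarith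
    have h10 : (0 : ℝ) ≤ k := Nat.cast_nonneg _
    nlinarith
  exact mul_le_mul_of_nonneg_right h8 h7

/-- **The law for all sums with weights.** -/
theorem law (ε : ℝ) (hε : 0 < ε) (C : ℕ) : ∃ k : ℕ, 2 ≤ k ∧ ∃ F₀ : ℕ, ∀ F : ℕ, F₀ ≤ F →
    ∀ w : ℕ → ℕ → ℝ, (∀ j q, |w j q| ≤ 1) →
    ∃ 𝓑 : Finset (Σ f : ℕ, DirichletCharacter ℂ f), (𝓑.card : ℝ) ≤ (F : ℝ) ^ ε ∧
      ∀ (f : ℕ) (χ : DirichletCharacter ℂ f), 1 ≤ f → f ≤ F → χ.IsPrimitive → ⟨f, χ⟩ ∉ 𝓑 →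
        ∀ T j : ℕ, Real.log F ^ (3 * k) ≤ T → T ≤ F ^ C → (j : ℝ) + 1 ≤ (F : ℝ) ^ ((k : ℝ)⁻¹) →
          ‖∑ q ∈ PP T, ((w j q * Real.log q : ℝ) : ℂ) * χ (q : ZMod f)‖ ≤
            (1 + k * 2 ^ (k - 1)) * (Real.log T * (T : ℝ) ^ (1 - (k : ℝ)⁻¹)) := by
  obtain ⟨k, hk⟩ := exists_nat_ge (max ((7 + 3 * C) / ε) 2)
  have hk2 : 2 ≤ k := by
    have : (2 : ℝ) ≤ k := (le_max_right _ _).trans hk
    exact_mod_cast this
  have hkε : (7 + 3 * C) / ε ≤ k := (le_max_left _ _).trans hk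
  have hk0 : (0 : ℝ) < k := by exact_mod_cast (by omega : 0 < k)
  refine ⟨k, hk2, ?_⟩
  have hev : ∀ᶠ F : ℕ in Filter.atTop, Real.exp 1 ≤ Real.log F ∧ (12 : ℝ) ≤ (F : ℝ) ^ ((k : ℝ)⁻¹) := by
    have h1 : Filter.Tendsto (fun F : ℕ => Real.log F) Filter.atTop Filter.atTop :=
      Real.tendsto_log_atTop.comp tendsto_natCast_atTop_atTop
    have h2 : Filter.Tendsto (fun F : ℕ => (F : ℝ) ^ ((k : ℝ)⁻¹)) Filter.atTop Filter.atTop :=
      (tendsto_rpow_atTop (by positivity)).comp tendsto_natCast_atTop_atTop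
    exact (h1.eventually_ge_atTop _).and (h2.eventually_ge_atTop _)
  obtain ⟨F₀, hF₀⟩ := Filter.eventually_atTop.1 hev
  refine ⟨F₀ + 1, fun F hF w hw => ?_⟩
  obtain ⟨hLe, h12⟩ := hF₀ F (by omega)
  have he : (2 : ℝ) ≤ Real.exp 1 := by
    have := Real.add_one_le_exp (1 : ℝ)
    linarith
  have hFR : (0 : ℝ) < F := by exact_mod_cast (by omega : 0 < F)
  obtain ⟨L, hL⟩ : ∃ L : ℝ, L = Real.log F := ⟨_, rfl⟩
  rw [← hL] at hLe
  obtain ⟨x, hx⟩ : ∃ x : ℝ, x = (F : ℝ) ^ ((k : ℝ)⁻¹) := ⟨_, rfl⟩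
  rw [← hx] at h12
  have hx0 : 0 < x := by linarith
  obtain ⟨W, hW⟩ : ∃ W : ℕ → ℕ → ℕ → ℝ, W = fun t j q => w j q * (Real.log q / Real.log ((t ^ k : ℕ) : ℝ)) :=
    ⟨_, rfl⟩
  obtain ⟨𝓑, h𝓑, hlaw⟩ := bad_union k hk2 C F L hL hLe x hx W (fun t j q hq => by
    rw [mem_PP] at hq
    rw [hW]
    simp only
    have hq1 : (1 : ℝ) < q := by exact_mod_cast hq.2.one_lt
    have h1 : 0 < Real.log q := Real.log_pos hq1
    have h2 : Real.log q ≤ Real.log ((t ^ k : ℕ) : ℝ) := Real.log_le_log (by linarith) (by exact_mod_cast hq.1)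
    rw [abs_mul, abs_of_nonneg (div_nonneg h1.le (h1.le.trans h2))]
    have h3 : Real.log q / Real.log ((t ^ k : ℕ) : ℝ) ≤ 1 := div_le_one_of_le₀ h2 (h1.le.trans h2)
    calc _ ≤ 1 * (1 : ℝ) := mul_le_mul (hw j q) h3 (div_nonneg h1.le (h1.le.trans h2)) zero_le_one
      _ = 1 := one_mul _)
  refine ⟨𝓑, h𝓑.trans ?_, fun f χ hf1 hfF hprim hnot T j hT hTC hj => ?_⟩
  · have h1 : 12 * x ^ (6 + 3 * C) ≤ x ^ (7 + 3 * C) := by
      have h2 : x ^ (7 + 3 * C) = x * x ^ (6 + 3 * C) := by ring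
      rw [h2]
      exact mul_le_mul_of_nonneg_right h12 (by positivity)
    refine h1.trans ?_
    rw [hx, ← Real.rpow_natCast, ← Real.rpow_mul hFR.le]
    refine Real.rpow_le_rpow_of_exponent_le (by exact_mod_cast (by omega : 1 ≤ F)) ?_
    rw [div_le_iff₀ hε] at hkε
    rw [inv_mul_le_iff₀ hk0]
    push_cast
    exact hkε
  · rw [← hL] at hT
    have hL2 : 2 ≤ L := he.trans hLe
    have hT1 : (1 : ℝ) ≤ T := (one_le_pow₀ (by linarith)).trans hT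
    have hT1' : 1 ≤ T := by exact_mod_cast hT1
    obtain ⟨t, ht1, ht2, ht3, ht4, ht5⟩ := near_power k hk2 T hT1'
    have hTk : L ^ 3 ≤ (T : ℝ) ^ ((k : ℝ)⁻¹) := by
      have h1 : (L ^ 3) ^ k ≤ T := by
        rw [← pow_mul]
        exact hT
      have h2 : ((L ^ 3) ^ k) ^ ((k : ℝ)⁻¹) ≤ (T : ℝ) ^ ((k : ℝ)⁻¹) :=
        Real.rpow_le_rpow (by positivity) h1 (by positivity)
      rwa [Real.pow_rpow_inv_natCast (by positivity) (by omega)] at h2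
    have htL : L ^ 2 ≤ t := by
      have h1 : L ^ 2 + 1 ≤ L ^ 3 := by nlinarith
      linarith
    have htC : (t : ℝ) ≤ x ^ C := by
      refine ht4.trans ?_
      rw [hx, ← Real.rpow_natCast, ← Real.rpow_mul hFR.le, mul_comm, Real.rpow_mul hFR.le, Real.rpow_natCast]
      exact Real.rpow_le_rpow (by positivity) (by exact_mod_cast hTC) (by positivity)
    have h1 := hlaw f χ hf1 hfF hprim hnot t j htL htC (by rw [hx]; exact hj)
    have ht2' : 4 ≤ (t : ℝ) := by nlinarith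
    have htk1 : (1 : ℝ) < ((t ^ k : ℕ) : ℝ) := by
      push_cast
      exact one_lt_pow₀ (by linarith) (by omega)
    have hlt : 0 < Real.log ((t ^ k : ℕ) : ℝ) := Real.log_pos htk1
    have hltT : Real.log ((t ^ k : ℕ) : ℝ) ≤ Real.log T :=
      Real.log_le_log (by linarith) (by exact_mod_cast ht1)
    have hlogT : 0 ≤ Real.log T := Real.log_natCast_nonneg T
    -- the sum up to `t ^ k`
    have h2 : ‖∑ q ∈ PP (t ^ k), ((w j q * Real.log q : ℝ) : ℂ) * χ (q : ZMod f)‖ ≤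
        Real.log T * (T : ℝ) ^ (1 - (k : ℝ)⁻¹) := by
      have h3 : ∑ q ∈ PP (t ^ k), ((w j q * Real.log q : ℝ) : ℂ) * χ (q : ZMod f) =
          ((Real.log ((t ^ k : ℕ) : ℝ) : ℝ) : ℂ) * ∑ q ∈ PP (t ^ k), (W t j q : ℂ) * χ (q : ZMod f) := by
        rw [mul_sum]
        refine sum_congr rfl fun q _ => ?_
        rw [hW]
        simp only
        rw [← mul_assoc, ← Complex.ofReal_mul]
        congr 2
        field_simp
      rw [h3, norm_mul, Complex.norm_real, Real.norm_eq_abs, abs_of_pos hlt]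
      exact mul_le_mul hltT (h1.trans ht2) (norm_nonneg _) hlogT
    -- the rest
    have hsub : PP (t ^ k) ⊆ PP T := fun q hq => by
      rw [mem_PP] at hq ⊢
      exact ⟨hq.1.trans ht1, hq.2⟩
    rw [← sum_sdiff hsub]
    have h3 : ‖∑ q ∈ PP T \ PP (t ^ k), ((w j q * Real.log q : ℝ) : ℂ) * χ (q : ZMod f)‖ ≤
        k * 2 ^ (k - 1) * (Real.log T * (T : ℝ) ^ (1 - (k : ℝ)⁻¹)) := by
      refine (norm_sum_le _ _).trans ?_
      refine (sum_le_sum (g := fun _ => Real.log T) fun q hq => ?_).trans ?_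
      · rw [mem_sdiff, mem_PP] at hq
        have hq1 : (1 : ℝ) < q := by exact_mod_cast hq.1.2.one_lt
        have h4 : 0 < Real.log q := Real.log_pos hq1
        have h5 : Real.log q ≤ Real.log T := Real.log_le_log (by linarith) (by exact_mod_cast hq.1.1)
        rw [norm_mul, Complex.norm_real, Real.norm_eq_abs, abs_mul, abs_of_pos h4]
        calc |w j q| * Real.log q * ‖χ (q : ZMod f)‖ ≤ 1 * Real.log T * 1 := by
              apply mul_le_mul _ (DirichletCharacter.norm_le_one χ _) (norm_nonneg _) (by linarith)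
              exact mul_le_mul (hw j q) h5 h4.le zero_le_one
          _ = Real.log T := by ring
      · rw [sum_const, nsmul_eq_mul]
        have h4 : ((PP T \ PP (t ^ k)).card : ℝ) ≤ (T : ℝ) - (t : ℝ) ^ k := by
          have h5 : PP T \ PP (t ^ k) ⊆ Ioc (t ^ k) T := fun q hq => by
            rw [mem_sdiff, mem_PP, mem_PP] at hq
            rw [mem_Ioc]
            exact ⟨by
              by_contra h
              exact hq.2 ⟨not_lt.1 h, hq.1.2⟩, hq.1.1⟩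
          have h6 := card_le_card h5
          rw [Nat.card_Ioc] at h6
          have h7 : ((PP T \ PP (t ^ k)).card : ℝ) ≤ ((T - t ^ k : ℕ) : ℝ) := by exact_mod_cast h6
          rw [Nat.cast_sub ht1] at h7
          push_cast at h7
          exact h7
        calc _ ≤ (k * 2 ^ (k - 1) * (T : ℝ) ^ (1 - (k : ℝ)⁻¹)) * Real.log T :=
              mul_le_mul_of_nonneg_right (h4.trans ht5) hlogT
          _ = _ := by ring
    refine (norm_add_le _ _).trans ?_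
    linarith

end Pool.Agent.H40AB
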