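import Pool.Agent.H40SY.Fin
import Pool.Agent.H40AB.Chr

/-! Subfields of the cyclotomic extensions of a number field. -/

set_option autoImplicit false

namespace Pool.Agent.H40AB

open NumberField IsDedekindDomain Polynomial Finset
open Pool.Agent.H40SY
open Pool.Agent.W401.Cheb (GK IsFrob)
open Pool.Agent.W353.NF (absNorm_ker)
open Pool.Agent.W353.TP (exists_rho)
open Pool.Agent.N842.HS (hv absNorm_hv hv_inj hv_surj VT mem_VT hom_finite cf)

/-- the coefficients of `x ^ f - 1` -/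
def cycA (R : Type*) [CommRing R] (f : ℕ) (i : Fin f) : R := if (i : ℕ) = 0 then -1 else 0

theorem mp_cycA (R : Type*) [CommRing R] {f : ℕ} (hf : 1 ≤ f) : mp (cycA R f) = X ^ f - 1 := by
  unfold mp cycA
  rw [Finset.sum_eq_single (⟨0, hf⟩ : Fin f)]
  · rw [if_pos rfl, pow_zero, mul_one, C_neg, C_1, sub_eq_add_neg]
  · intro i _ hi
    rw [if_neg (fun h => hi (Fin.ext h)), C_0, zero_mul]
  · intro h
    exact absurd (mem_univ _) h

theorem map_cycA {R S : Type*} [CommRing R] [CommRing S] (φ : R →+* S) (f : ℕ) :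
    (fun i => φ (cycA R f i)) = cycA S f := by
  funext i
  unfold cycA
  split_ifs
  · rw [map_neg, map_one]
  · rw [map_zero]

section
variable {K : Type} [Field K] [NumberField K] {f : ℕ}

/-- separability modulo the primes which do not divide `f` -/
theorem cyc_sep (hf : 1 ≤ f) {p : ℕ} [hp : Fact p.Prime] (hpf : ¬ p ∣ f) (φ : 𝓞 K →+* ZMod p) :
    (mp (fun i => φ (cycA (𝓞 K) f i))).Separable := by
  rw [map_cycA, mp_cycA _ hf, X_pow_sub_one_separable_iff]
  rwa [Ne, ZMod.natCast_eq_zero_iff]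

variable {θ : Fin f → 𝓞 (AlgebraicClosure K)} (hθ : Roots (cycA (𝓞 K) f) θ)

include hθ in
omit [NumberField K] in
theorem mem_theta (hf : 1 ≤ f) (z : AlgebraicClosure K) (hz : z ^ f = 1) :
    ∃ i, (θ i : AlgebraicClosure K) = z := by
  rw [← mem_rootsOf hθ]
  show aeval z ((mp (cycA (𝓞 K) f)).map (algebraMap (𝓞 K) K)) = 0
  rw [mp_cycA _ hf, Polynomial.map_sub, Polynomial.map_pow, map_X, Polynomial.map_one, map_sub, map_pow,
    aeval_X, map_one, hz, sub_self]

variable {ζ : AlgebraicClosure K}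

omit [NumberField K] in
/-- automorphisms which agree on `ζ` agree on `K(ζ)` and its conjugates -/
theorem agree {σ τ : GK K} (hζ : ζ ^ f = 1) (hf : 1 ≤ f) (h : ∀ z : AlgebraicClosure K, z ^ f = 1 → σ z = τ z)
    (ρ : GK K) {x : AlgebraicClosure K} (hx : x ∈ IntermediateField.adjoin K {ζ}) :
    σ (ρ x) = τ (ρ x) := by
  refine IntermediateField.adjoin_induction K (s := {ζ}) (p := fun x _ => σ (ρ x) = τ (ρ x))
    ?_ ?_ ?_ ?_ ?_ hx
  · intro x hx
    rw [Set.mem_singleton_iff] at hx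
    subst hx
    apply h
    rw [← map_pow, hζ, map_one]
  · intro x
    rw [ρ.commutes, σ.commutes, τ.commutes]
  · intro x y _ _ hx hy
    rw [map_add, map_add, map_add, hx, hy]
  · intro x _ hx
    rw [map_inv₀, map_inv₀, map_inv₀, hx]
  · intro x y _ _ hx hy
    rw [map_mul, map_mul, map_mul, hx, hy]

variable [NeZero f] (hζ : IsPrimitiveRoot ζ f)

omit [NumberField K] in
/-- the action on the roots of unity -/
theorem act_root (σ : GK K) (z : AlgebraicClosure K) (hz : z ^ f = 1) :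
    σ z = z ^ (hζ.autToPow K σ : ZMod f).val := by
  obtain ⟨i, _, rfl⟩ := hζ.eq_pow_of_pow_eq_one hz
  rw [map_pow, ← hζ.autToPow_spec K σ, ← pow_mul, ← pow_mul, mul_comm]

omit [NumberField K] in
theorem agree_of {σ τ : GK K} (h : hζ.autToPow K σ = hζ.autToPow K τ) (z : AlgebraicClosure K)
    (hz : z ^ f = 1) : σ z = τ z := by
  rw [act_root hζ σ z hz, act_root hζ τ z hz, h]

include hζ in
/-- all embeddings of the subfields of `K(ζ)` are fixed by the automorphisms which fix the roots of unity -/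
theorem inside {θ : Fin f → 𝓞 (AlgebraicClosure K)} (hθ : Roots (cycA (𝓞 K) f) θ) (M : IntermediateField K (AlgebraicClosure K)) [NumberField M]
    (hM : M ≤ IntermediateField.adjoin K {ζ}) : Inside θ M := by
  intro g hg ι
  have hf : 1 ≤ f := Nat.pos_of_ne_zero (NeZero.ne f)
  obtain ⟨ρ, hρ⟩ := exists_rho M.val ι
  ext x
  show g (ι x) = ι x
  rw [← hρ x]
  refine agree (σ := g) (τ := 1) hζ.pow_eq_one hf (fun z hz => ?_) ρ (hM x.2)
  obtain ⟨i, hi⟩ := mem_theta hθ hf z hz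
  rw [← hi]
  exact congrArg (fun w : 𝓞 (AlgebraicClosure K) => (w : AlgebraicClosure K)) (hg i)

/-- the Frobenius elements -/
theorem frob_pow {p : ℕ} [hp : Fact p.Prime] (hpf : ¬ p ∣ f) (φ : 𝓞 K →+* ZMod p) {σ : GK K}
    (hσ : IsFrob (hv φ) σ) : (hζ.autToPow K σ : ZMod f) = (p : ZMod f) := by
  have hf : 1 ≤ f := Nat.pos_of_ne_zero (NeZero.ne f)
  obtain ⟨θ, hθ⟩ := exists_roots (cycA (𝓞 K) f)
  have hφ : RingHom.ker φ = (hv φ).asIdeal := rfl
  obtain ⟨Q, hQm, hQv, hQ⟩ := hσ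
  obtain ⟨ι, h1, h2⟩ := roots_mod hθ φ hφ (cyc_sep hf hpf φ) Q hQm hQv
  rw [absNorm_ker φ hφ] at hQ
  obtain ⟨i, hi⟩ := mem_theta hθ hf ζ hζ.pow_eq_one
  obtain ⟨j, hj⟩ := mem_theta hθ hf (σ ζ) (by rw [← map_pow, hζ.pow_eq_one, map_one])
  obtain ⟨k, hk⟩ := mem_theta hθ hf (ζ ^ p) (by rw [← pow_mul, mul_comm, pow_mul, hζ.pow_eq_one, one_pow])
  have h3 : θ j = σ • θ i := by
    apply RingOfIntegers.ext
    rw [hj, Pool.Agent.W401.Frob.coe_smul, hi]
  have h4 : θ k = θ i ^ p := by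
    apply RingOfIntegers.ext
    rw [hk, ← hi]
    rfl
  have h5 : j = k := by
    apply h2
    show Ideal.Quotient.mk Q (θ j) = Ideal.Quotient.mk Q (θ k)
    rw [Ideal.Quotient.mk_eq_mk_iff_sub_mem, h3, h4]
    exact hQ (θ i)
  have h6 : σ ζ = ζ ^ p := by rw [← hj, ← hk, h5]
  have h7 := hζ.autToPow_spec K σ
  rw [h6] at h7
  have h8 : (hζ.autToPow K σ : ZMod f).val ≡ p [MOD f] := by
    have h9 : (hζ.toRootsOfUnity : (AlgebraicClosure K)ˣ) ^ (hζ.autToPow K σ : ZMod f).val =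
        (hζ.toRootsOfUnity : (AlgebraicClosure K)ˣ) ^ p := by
      apply Units.ext
      exact h7
    rw [pow_eq_pow_iff_modEq] at h9
    have h10 : orderOf (hζ.toRootsOfUnity : (AlgebraicClosure K)ˣ) = f := by
      rw [← orderOf_units]
      exact hζ.eq_orderOf.symm
    rwa [h10] at h9
  have h11 := (ZMod.natCast_eq_natCast_iff _ _ _).2 h8
  rwa [ZMod.natCast_zmod_val] at h11

/-- the image of the automorphisms over `M` -/
noncomputable def HM (M : IntermediateField K (AlgebraicClosure K)) : Subgroup (ZMod f)ˣ :=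
  M.fixingSubgroup.map (hζ.autToPow K)

/-- the image of the Galois group of `K` -/
noncomputable def GG : Subgroup (ZMod f)ˣ := (hζ.autToPow K).range

omit [NumberField K] in
theorem HM_le (M : IntermediateField K (AlgebraicClosure K)) : HM hζ M ≤ GG (K := K) hζ := by
  rintro x ⟨σ, _, rfl⟩
  exact ⟨σ, rfl⟩

variable {M : IntermediateField K (AlgebraicClosure K)} (hM : M ≤ IntermediateField.adjoin K {ζ})

include hM in
omit [NumberField K] in
theorem fixed_iff (σ : GK K) : (∀ x ∈ M, σ x = x) ↔ hζ.autToPow K σ ∈ HM hζ M := by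
  have hf : 1 ≤ f := Nat.pos_of_ne_zero (NeZero.ne f)
  constructor
  · intro h
    exact ⟨σ, (IntermediateField.mem_fixingSubgroup_iff _ _).2 h, rfl⟩
  · rintro ⟨τ, hτ, hτσ⟩ x hx
    have h1 := agree hζ.pow_eq_one hf (agree_of hζ hτσ.symm) 1 (hM hx)
    have h2 : σ x = τ x := h1
    rw [h2]
    exact (IntermediateField.mem_fixingSubgroup_iff _ _).1 hτ x hx

include hM in
/-- embeddings fixed by `σ` -/
theorem comp_iff [NumberField M] (σ : GK K) (ι : M →ₐ[K] AlgebraicClosure K) :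
    (σ : AlgebraicClosure K →ₐ[K] AlgebraicClosure K).comp ι = ι ↔ hζ.autToPow K σ ∈ HM hζ M := by
  obtain ⟨ρ, hρ⟩ := exists_rho M.val ι
  have h1 : hζ.autToPow K σ = hζ.autToPow K (ρ⁻¹ * σ * ρ) := by
    rw [map_mul, map_mul, map_inv, mul_comm ((hζ.autToPow K) ρ)⁻¹, mul_assoc, inv_mul_cancel, mul_one]
  rw [h1, ← fixed_iff hζ hM]
  constructor
  · intro h x hx
    have h2 := DFunLike.congr_fun h (⟨x, hx⟩ : M)
    change σ (ι ⟨x, hx⟩) = ι ⟨x, hx⟩ at h2
    rw [← hρ ⟨x, hx⟩] at h2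
    change σ (ρ x) = ρ x at h2
    change ρ⁻¹ (σ (ρ x)) = x
    rw [h2]
    exact ρ.symm_apply_apply x
  · intro h
    ext x
    have h2 := h x x.2
    change ρ⁻¹ (σ (ρ x)) = x at h2
    change σ (ι x) = ι x
    rw [← hρ x]
    change σ (ρ x) = ρ x
    conv_rhs => rw [← h2]
    exact (ρ.apply_symm_apply _).symm

include hM in
/-- **The degree.** -/
theorem card_emb [NumberField M] : Nat.card (M →ₐ[K] AlgebraicClosure K) * Nat.card (HM hζ M) =
    Nat.card (GG (K := K) hζ) := by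
  classical
  have hf : 1 ≤ f := Nat.pos_of_ne_zero (NeZero.ne f)
  have hch : ∀ y : GG (K := K) hζ, ∃ σ : GK K, hζ.autToPow K σ = y := fun y => y.2
  choose s hs using hch
  let H' : Subgroup (GG (K := K) hζ) := (HM hζ M).subgroupOf (GG (K := K) hζ)
  have hrel : ∀ y y' : GG (K := K) hζ, (s y : AlgebraicClosure K →ₐ[K] AlgebraicClosure K).comp M.val =
      (s y' : AlgebraicClosure K →ₐ[K] AlgebraicClosure K).comp M.val ↔ y⁻¹ * y' ∈ H' := by
    intro y y'
    have h1 : y⁻¹ * y' ∈ H' ↔ hζ.autToPow K ((s y)⁻¹ * s y') ∈ HM hζ M := by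
      rw [map_mul, map_inv, hs, hs]
      rfl
    rw [h1, ← fixed_iff hζ hM]
    constructor
    · intro h x hx
      have h2 := DFunLike.congr_fun h (⟨x, hx⟩ : M)
      change s y x = s y' x at h2
      change (s y)⁻¹ (s y' x) = x
      rw [← h2]
      exact (s y).symm_apply_apply x
    · intro h
      ext x
      have h2 := h x x.2
      change (s y)⁻¹ (s y' x) = x at h2
      change s y x = s y' x
      conv_lhs => rw [← h2]
      exact (s y).apply_symm_apply _
  have hq : Nat.card (GG (K := K) hζ ⧸ H') = Nat.card (M →ₐ[K] AlgebraicClosure K) := by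
    refine Nat.card_eq_of_bijective (Quotient.lift (fun y =>
      (s y : AlgebraicClosure K →ₐ[K] AlgebraicClosure K).comp M.val) ?_) ⟨?_, ?_⟩
    · intro y y' h
      rw [hrel]
      exact QuotientGroup.leftRel_apply.1 h
    · intro a b
      refine Quotient.inductionOn₂ a b fun y y' h => ?_
      apply Quotient.sound
      exact QuotientGroup.leftRel_apply.2 ((hrel y y').1 h)
    · intro ι
      obtain ⟨ρ, hρ⟩ := exists_rho M.val ι
      refine ⟨Quotient.mk _ ⟨hζ.autToPow K ρ, ρ, rfl⟩, ?_⟩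
      ext x
      rw [← hρ x]
      exact agree hζ.pow_eq_one hf (agree_of hζ (hs ⟨hζ.autToPow K ρ, ρ, rfl⟩)) 1 (hM x.2)
  have h2 := H'.card_eq_card_quotient_mul_card_subgroup
  rw [hq] at h2
  rw [h2]
  congr 1
  exact Nat.card_congr (Subgroup.subgroupOfEquivOfLe (HM_le hζ M)).symm.toEquiv

include hM in
open Classical in
/-- **The number of the primes of degree one.** -/
theorem card_over [NumberField M] {p : ℕ} [hp : Fact p.Prime] (hpf : ¬ p ∣ f) (φ : 𝓞 K →+* ZMod p) :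
    ∃ u : (ZMod f)ˣ, (u : ZMod f) = p ∧ u ∈ GG (K := K) hζ ∧
      (Nat.card {ψ : 𝓞 M →+* ZMod p // ψ.comp (algebraMap (𝓞 K) (𝓞 M)) = φ} : ℂ) =
        if u ∈ HM hζ M then (Nat.card (GG (K := K) hζ) : ℂ) / Nat.card (HM hζ M) else 0 := by
  have hf : 1 ≤ f := Nat.pos_of_ne_zero (NeZero.ne f)
  obtain ⟨θ, hθ⟩ := exists_roots (cycA (𝓞 K) f)
  have hφ : RingHom.ker φ = (hv φ).asIdeal := rfl
  obtain ⟨σ, hσ⟩ := Pool.Agent.W401.Frob.exists_frob (hv φ)
  have hins : Inside θ M := inside hζ hθ M hM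
  have hcard : Nat.card {i : M →ₐ[K] AlgebraicClosure K //
      (σ : AlgebraicClosure K →ₐ[K] AlgebraicClosure K).comp i = i} =
      Nat.card {ψ : 𝓞 M →+* ZMod p // ψ.comp (algebraMap (𝓞 K) (𝓞 M)) = φ} := by
    obtain ⟨Q₀, hQ₀m, hQ₀v, _⟩ := id hσ
    obtain ⟨ι₀, _, h₀⟩ := roots_mod hθ φ hφ (cyc_sep hf hpf φ) Q₀ hQ₀m hQ₀v
    have hinj : Function.Injective θ := fun i j hij => h₀ (congrArg (Ideal.Quotient.mk Q₀) hij)
    refine card_ext' (hv φ) (fun Q hQm hQv i j hij => ?_) σ hσ φ hφ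
    refine sep hθ hinj hins Q hQm.isPrime (fun i j hij => ?_) i j hij
    obtain ⟨ι, h1, h2⟩ := roots_mod hθ φ hφ (cyc_sep hf hpf φ) Q hQm hQv
    exact h2 ((Ideal.Quotient.mk_eq_mk_iff_sub_mem _ _).2 hij)
  refine ⟨hζ.autToPow K σ, frob_pow hζ hpf φ hσ, ⟨σ, rfl⟩, ?_⟩
  rw [← hcard]
  split_ifs with h
  · have h1 : Nat.card {i : M →ₐ[K] AlgebraicClosure K //
        (σ : AlgebraicClosure K →ₐ[K] AlgebraicClosure K).comp i = i} =
        Nat.card (M →ₐ[K] AlgebraicClosure K) :=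
      Nat.card_congr (Equiv.subtypeUnivEquiv fun i => (comp_iff hζ hM σ i).2 h)
    rw [h1, eq_div_iff, ← card_emb hζ hM]
    · push_cast
      rfl
    · have : Nat.card (HM hζ M) ≠ 0 := Nat.card_pos.ne'
      exact_mod_cast this
  · have h1 : IsEmpty {i : M →ₐ[K] AlgebraicClosure K //
        (σ : AlgebraicClosure K →ₐ[K] AlgebraicClosure K).comp i = i} :=
      ⟨fun i => h ((comp_iff hζ hM σ i.1).1 i.2)⟩
    rw [Nat.card_of_isEmpty, Nat.cast_zero]

end

end Pool.Agent.H40AB
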