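import Pool.Agent.H40SY.Defs

/-!
# Tauberian averages over the subfields of cyclotomic extensions: definitions
-/

set_option autoImplicit false

namespace Pool.Agent.H40AB

variable {K : Type} [Field K] [NumberField K]

/-- The field `M` is contained in the extension of `K` generated by the `f`-th roots of unity, for some
positive `f ≤ F`.  (For `K = ℚ` these are, by the theorem of Kronecker and Weber, the abelian number fields
of conductor at most `F`.) -/
def InCyclotomic (F : ℕ) (M : IntermediateField K (AlgebraicClosure K)) : Prop :=
  ∃ f : ℕ, 1 ≤ f ∧ f ≤ F ∧ ∃ ζ : AlgebraicClosure K, IsPrimitiveRoot ζ f ∧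
    M ≤ IntermediateField.adjoin K {ζ}

end Pool.Agent.H40AB
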