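import Pool.Agent.H40AB.Cyc

/-! The fields of the characters. -/

set_option autoImplicit false

namespace Pool.Agent.H40AB

open NumberField IsDedekindDomain Polynomial Finset
open Pool.Agent.W401.Cheb (GK IsFrob)

section
variable {K : Type} [Field K] [NumberField K]

variable (K) in
/-- the set of the automorphisms with `χ = 1` -/
def kerSet (z : Σ f : ℕ, DirichletCharacter ℂ f) : Set (GK K) :=
  {σ | ∀ c : ℕ, (∀ x : AlgebraicClosure K, x ^ z.1 = 1 → σ x = x ^ c) → z.2 (c : ZMod z.1) = 1}

variable (K) in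
/-- the field of a character -/
noncomputable def charField (z : Σ f : ℕ, DirichletCharacter ℂ f) :
    IntermediateField K (AlgebraicClosure K) :=
  IntermediateField.fixedField (Subgroup.closure (kerSet K z))

variable {f : ℕ} [NeZero f] {ζ : AlgebraicClosure K} (hζ : IsPrimitiveRoot ζ f)
  (χ : DirichletCharacter ℂ f)

omit [NumberField K] in
theorem prim_val (σ : GK K) : χ.primitiveCharacter (((hζ.autToPow K σ : ZMod f).val : ℕ) : ZMod χ.conductor) =
    χ (hζ.autToPow K σ : ZMod f) := by
  have h1 : IsCoprime (((hζ.autToPow K σ : ZMod f).val : ℕ) : ℤ) (f : ℤ) :=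
    Nat.isCoprime_iff_coprime.2 (ZMod.val_coe_unit_coprime _)
  have h2 := χ.primitiveCharacter_apply_of_isCoprime h1
  rw [Int.cast_natCast, Int.cast_natCast] at h2
  rw [h2, ZMod.natCast_zmod_val]

omit [NumberField K] in
theorem mem_kerSet (σ : GK K) : σ ∈ kerSet K ⟨χ.conductor, χ.primitiveCharacter⟩ ↔
    χ (hζ.autToPow K σ : ZMod f) = 1 := by
  have hd : χ.conductor ∣ f := χ.conductor_dvd_level
  obtain ⟨e, he⟩ := hd
  have hf : f ≠ 0 := NeZero.ne f
  have hc0 : χ.conductor ≠ 0 := fun h => hf (by rw [he, h, zero_mul])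
  rw [← prim_val hζ χ σ]
  constructor
  · intro h
    refine h _ fun x hx => ?_
    refine act_root hζ σ x ?_
    have hx' : x ^ χ.conductor = 1 := hx
    rw [he, pow_mul, hx', one_pow]
  · intro h c hc
    have hprim : IsPrimitiveRoot (ζ ^ e) χ.conductor := by
      have hmul : e * χ.conductor = f := by rw [mul_comm]; exact he.symm
      exact hζ.pow (Nat.pos_of_ne_zero hf) hmul.symm
    have h1 : σ (ζ ^ e) = (ζ ^ e) ^ c := hc _ hprim.pow_eq_one
    have h2 : σ (ζ ^ e) = (ζ ^ e) ^ (hζ.autToPow K σ : ZMod f).val := by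
      refine act_root hζ σ _ ?_
      rw [← pow_mul, mul_comm, pow_mul, hζ.pow_eq_one, one_pow]
    rw [h2] at h1
    have : NeZero χ.conductor := ⟨hc0⟩
    have h8 : (hζ.autToPow K σ : ZMod f).val ≡ c [MOD χ.conductor] := by
      have h9 : (hprim.toRootsOfUnity : (AlgebraicClosure K)ˣ) ^ (hζ.autToPow K σ : ZMod f).val =
          (hprim.toRootsOfUnity : (AlgebraicClosure K)ˣ) ^ c := by
        apply Units.ext
        exact h1
      rw [pow_eq_pow_iff_modEq] at h9
      have h10 : orderOf (hprim.toRootsOfUnity : (AlgebraicClosure K)ˣ) = χ.conductor := by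
        rw [← orderOf_units]
        exact hprim.eq_orderOf.symm
      rwa [h10] at h9
    have h11 := (ZMod.natCast_eq_natCast_iff _ _ _).2 h8
    show χ.primitiveCharacter (c : ZMod χ.conductor) = 1
    rw [← h11]
    exact h

omit [NumberField K] in
theorem charField_le [CharZero K] {M : IntermediateField K (AlgebraicClosure K)}
    (hχ : χ ∈ XH (HM hζ M)) : charField K ⟨χ.conductor, χ.primitiveCharacter⟩ ≤ M := by
  intro x hx
  rw [← InfiniteGalois.fixedField_fixingSubgroup M, IntermediateField.mem_fixedField_iff]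
  intro σ hσ
  unfold charField at hx
  rw [IntermediateField.mem_fixedField_iff] at hx
  refine hx σ (Subgroup.subset_closure ?_)
  rw [mem_kerSet hζ χ σ]
  exact mem_XH.1 hχ _ ⟨σ, hσ, rfl⟩

theorem charField_ne_bot (hχ : χ ∉ XH (GG (K := K) hζ)) :
    charField K ⟨χ.conductor, χ.primitiveCharacter⟩ ≠ ⊥ := by
  intro hbot
  rw [mem_XH] at hχ
  push Not at hχ
  obtain ⟨_, ⟨σ₀, rfl⟩, hσ₀⟩ := hχ
  let U : Subgroup (GK K) := (χ.toUnitHom.comp (hζ.autToPow K)).ker
  have hU : ∀ σ, σ ∈ U ↔ χ (hζ.autToPow K σ : ZMod f) = 1 := by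
    intro σ
    show (χ.toUnitHom.comp (hζ.autToPow K)) σ = 1 ↔ _
    rw [Units.ext_iff]
    show ((χ.toUnitHom (hζ.autToPow K σ) : ℂˣ) : ℂ) = 1 ↔ _
    rw [MulChar.coe_toUnitHom]
  have hset : kerSet K ⟨χ.conductor, χ.primitiveCharacter⟩ = (U : Set (GK K)) := by
    ext σ
    rw [mem_kerSet hζ χ σ, SetLike.mem_coe, hU]
  unfold charField at hbot
  rw [hset, Subgroup.closure_eq] at hbot
  have hint : IsIntegral K ζ := Algebra.IsIntegral.isIntegral ζ
  have hfd : FiniteDimensional K (IntermediateField.adjoin K {ζ}) :=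
    IntermediateField.adjoin.finiteDimensional hint
  have hle : (IntermediateField.adjoin K {ζ}).fixingSubgroup ≤ U := by
    intro σ hσ
    rw [hU]
    have h1 : σ ζ = ζ := (IntermediateField.mem_fixingSubgroup_iff _ _).1 hσ ζ
      (IntermediateField.mem_adjoin_simple_self K ζ)
    have h2 : hζ.autToPow K σ = 1 := by
      apply Units.ext
      have h3 := hζ.autToPow_spec K σ
      rw [h1] at h3
      have h8 : (hζ.autToPow K σ : ZMod f).val ≡ 1 [MOD f] := by
        have h9 : (hζ.toRootsOfUnity : (AlgebraicClosure K)ˣ) ^ (hζ.autToPow K σ : ZMod f).val =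
            (hζ.toRootsOfUnity : (AlgebraicClosure K)ˣ) ^ 1 := by
          apply Units.ext
          rw [pow_one]
          exact h3
        rw [pow_eq_pow_iff_modEq] at h9
        have h10 : orderOf (hζ.toRootsOfUnity : (AlgebraicClosure K)ˣ) = f := by
          rw [← orderOf_units]
          exact hζ.eq_orderOf.symm
        rwa [h10] at h9
      have h11 := (ZMod.natCast_eq_natCast_iff _ _ _).2 h8
      rw [ZMod.natCast_zmod_val, Nat.cast_one] at h11
      rw [h11]
      rfl
    rw [h2, Units.val_one, map_one]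
  have hopen : IsOpen (U : Set (GK K)) :=
    Subgroup.isOpen_mono hle (IntermediateField.fixingSubgroup_isOpen _)
  have hclosed : IsClosed (U : Set (GK K)) := Subgroup.isClosed_of_isOpen U hopen
  have h1 := InfiniteGalois.fixingSubgroup_fixedField (⟨U, hclosed⟩ : ClosedSubgroup (GK K))
  have h2 : (IntermediateField.fixedField U).fixingSubgroup = U := h1
  rw [hbot, IntermediateField.fixingSubgroup_bot] at h2
  apply hσ₀
  rw [← hU, ← h2]
  trivial

end

end Pool.Agent.H40AB
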