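import Pool.Agent.H40AB.Main

/-! Tauberian averages over the subfields of cyclotomic extensions: the theorem. -/

set_option autoImplicit false

namespace Pool.Agent.H40AB

open NumberField IsDedekindDomain Polynomial Finset Filter
open Pool.Agent.H40SY
open Pool.Agent.N842.HS (hv absNorm_hv hv_inj hv_surj VT mem_VT hom_finite cf)
open Pool.Agent.W353.SP (IsTrace average)

/-- the growth -/
theorem growth (C κ : ℝ) (hκ : 0 < κ) : ∃ T₀ : ℕ, ∀ T : ℕ, T₀ ≤ T →
    C * (Real.log T * (T : ℝ) ^ (1 - 2 * κ)) ≤ (T : ℝ) ^ (1 - κ) := by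
  have h1 : (fun x : ℝ => Real.log x) =o[atTop] fun x => x ^ κ := isLittleO_log_rpow_atTop hκ
  have h2 := h1.bound (c := 1 / (|C| + 1)) (by positivity)
  have h3 := tendsto_natCast_atTop_atTop (R := ℝ) |>.eventually h2
  obtain ⟨T₀, hT₀⟩ := eventually_atTop.1 h3
  refine ⟨T₀ + 1, fun T hT => ?_⟩
  have h4 := hT₀ T (by omega)
  have hT0 : (0 : ℝ) < T := by exact_mod_cast (by omega : 0 < T)
  have hlog : 0 ≤ Real.log T := Real.log_natCast_nonneg T
  have hTκ : |(T : ℝ) ^ κ| = (T : ℝ) ^ κ := abs_of_nonneg (by positivity)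
  rw [Real.norm_eq_abs, Real.norm_eq_abs, abs_of_nonneg hlog, hTκ] at h4
  have h5 : (T : ℝ) ^ (1 - κ) = (T : ℝ) ^ κ * (T : ℝ) ^ (1 - 2 * κ) := by
    rw [← Real.rpow_add hT0]
    congr 1
    ring
  rw [h5, ← mul_assoc]
  apply mul_le_mul_of_nonneg_right _ (by positivity)
  have hC1 : 0 < |C| + 1 := by positivity
  calc C * Real.log T ≤ (|C| + 1) * Real.log T :=
        mul_le_mul_of_nonneg_right ((le_abs_self C).trans (by linarith)) hlog
    _ ≤ (|C| + 1) * (1 / (|C| + 1) * (T : ℝ) ^ κ) := mul_le_mul_of_nonneg_left h4 hC1.le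
    _ = (T : ℝ) ^ κ := by field_simp

section
variable (K : Type) [Field K] [NumberField K]

open Classical in
/-- **The theorem.** -/
theorem main (ε : ℝ) (hε : 0 < ε) (C : ℕ) : ∃ (η : ℝ) (A F₀ : ℕ), 0 < η ∧
    ∀ (V : ℕ → VarietyData K) (F : ℕ), F₀ ≤ F →
      ∃ 𝓔 : Finset (IntermediateField K (AlgebraicClosure K)), (𝓔.card : ℝ) ≤ (F : ℝ) ^ ε ∧ ⊥ ∉ 𝓔 ∧
        ∀ (M : IntermediateField K (AlgebraicClosure K)) [NumberField M], InCyclotomic F M →
          (∀ L ∈ 𝓔, ¬ L ≤ M) → ∀ T j : ℕ, Real.log F ^ A ≤ T → T ≤ F ^ C → (j : ℝ) ≤ (F : ℝ) ^ η →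
            Close (V j) M T (Module.finrank K M * (T : ℝ) ^ (-η)) := by
  obtain ⟨k, hk2, F₁, hlaw⟩ := law ε hε C
  have hk : (2 : ℝ) ≤ k := by exact_mod_cast hk2
  have hk0 : (0 : ℝ) < k := by linarith
  obtain ⟨η, hη⟩ : ∃ η : ℝ, η = 1 / (2 * k) := ⟨_, rfl⟩
  have hη0 : 0 < η := by rw [hη]; positivity
  have h2η : 2 * η = (k : ℝ)⁻¹ := by rw [hη]; field_simp
  obtain ⟨d, hd⟩ : ∃ d : ℝ, d = Module.finrank ℚ K := ⟨_, rfl⟩
  have hd1 : 1 ≤ d := by
    rw [hd]
    exact_mod_cast Module.finrank_pos (R := ℚ) (M := K)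
  obtain ⟨C', hC'⟩ : ∃ C' : ℝ, C' = 2 * d + d * (1 + k * 2 ^ (k - 1)) + 2 * d + 2 * d ^ 2 := ⟨_, rfl⟩
  obtain ⟨T₀, hT₀⟩ := growth C' η hη0
  have hev : ∀ᶠ F : ℕ in atTop, (T₀ : ℝ) + 3 ≤ Real.log F ∧ (2 : ℝ) ≤ (F : ℝ) ^ η := by
    have h1 : Tendsto (fun F : ℕ => Real.log F) atTop atTop :=
      Real.tendsto_log_atTop.comp tendsto_natCast_atTop_atTop
    have h2 : Tendsto (fun F : ℕ => (F : ℝ) ^ η) atTop atTop :=
      (tendsto_rpow_atTop hη0).comp tendsto_natCast_atTop_atTop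
    exact (h1.eventually_ge_atTop _).and (h2.eventually_ge_atTop _)
  obtain ⟨F₂, hF₂⟩ := eventually_atTop.1 hev
  refine ⟨η, 3 * k, F₁ + F₂ + 1, hη0, fun V F hF => ?_⟩
  obtain ⟨hFlog, hF2⟩ := hF₂ F (by omega)
  have hFR : (0 : ℝ) < F := by exact_mod_cast (by omega : 0 < F)
  obtain ⟨𝓑, h𝓑, hgood⟩ := hlaw F (by omega) (fun j q => WW (V j) q) (fun j q => WW_abs (V j) q)
  refine ⟨(𝓑.image (charField K)).filter (fun L => L ≠ ⊥), ?_, ?_, ?_⟩
  · refine le_trans ?_ h𝓑
    exact_mod_cast (card_filter_le _ _).trans card_image_le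
  · rw [mem_filter]
    exact fun h => h.2 rfl
  · intro M _ hM hL T j hT hTC hj
    obtain ⟨f, hf1, hfF, ζ, hζ, hMζ⟩ := hM
    have : NeZero f := ⟨by omega⟩
    have hL3 : 3 ≤ Real.log F := by
      have : (0 : ℝ) ≤ T₀ := Nat.cast_nonneg _
      linarith
    have hTL : Real.log F ≤ T := by
      refine le_trans ?_ hT
      exact le_self_pow₀ (by linarith) (by omega)
    have hTT : T₀ + 3 ≤ T := by
      have h1 : (T₀ : ℝ) + 3 ≤ T := hFlog.trans hTL
      exact_mod_cast h1
    have hT0 : (0 : ℝ) < T := by exact_mod_cast (by omega : 0 < T)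
    have hT1 : (1 : ℝ) ≤ T := by exact_mod_cast (by omega : 1 ≤ T)
    have hlogT : 0 ≤ Real.log T := Real.log_natCast_nonneg T
    obtain ⟨P, hP⟩ : ∃ P : ℝ, P = (T : ℝ) ^ (1 - (k : ℝ)⁻¹) := ⟨_, rfl⟩
    have hP0 : 0 ≤ P := by rw [hP]; positivity
    obtain ⟨B, hB⟩ : ∃ B : ℝ, B = (1 + k * 2 ^ (k - 1)) * (Real.log T * P) := ⟨_, rfl⟩
    have hB0 : 0 ≤ B := by rw [hB]; positivity
    have hkinv : (k : ℝ)⁻¹ ≤ 1 / 2 := by
      rw [one_div]
      exact inv_anti₀ (by norm_num) hk
    -- the characters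
    have hchar : ∀ χ : DirichletCharacter ℂ f, χ ∈ XH (HM hζ M) → χ ∉ XH (GG (K := K) hζ) →
        ‖∑ q ∈ PP T, ((WW (V j) q * Real.log q : ℝ) : ℂ) *
          χ.primitiveCharacter (q : ZMod χ.conductor)‖ ≤ B := by
      intro χ hχ1 hχ2
      rw [hB, hP]
      have hcond : 1 ≤ χ.conductor := Nat.pos_of_dvd_of_pos χ.conductor_dvd_level hf1
      refine hgood χ.conductor χ.primitiveCharacter hcond
        ((Nat.le_of_dvd hf1 χ.conductor_dvd_level).trans hfF) χ.primitiveCharacter_isPrimitive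
        (fun hmem => ?_) T j hT hTC ?_
      · refine hL (charField K ⟨χ.conductor, χ.primitiveCharacter⟩) ?_ (charField_le hζ χ hχ1)
        rw [mem_filter]
        exact ⟨mem_image_of_mem _ hmem, charField_ne_bot hζ χ hχ2⟩
      · have h1 : (F : ℝ) ^ ((k : ℝ)⁻¹) = (F : ℝ) ^ η * (F : ℝ) ^ η := by
          rw [← Real.rpow_add hFR, ← h2η]
          congr 1
          ring
        rw [h1]
        nlinarith
    have hsum := sum_close hζ hMζ (V j) T B hB0 hchar
    rw [← hd] at hsum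
    obtain ⟨m, hm⟩ : ∃ m : ℝ, m = Module.finrank K M := ⟨_, rfl⟩
    rw [← hm] at hsum
    have hm1 : 1 ≤ m := by
      rw [hm]
      have : FiniteDimensional K M := Module.Finite.of_restrictScalars_finite ℚ K M
      exact_mod_cast Module.finrank_pos (R := K) (M := M)
    have hdm : (Module.finrank ℚ M : ℝ) = d * m := by
      rw [hd, hm, ← Nat.cast_mul, Module.finrank_mul_finrank]
    -- the averages
    intro R' b' hR' hb'
    obtain ⟨D, hD⟩ : ∃ D : VarietyData K, D = V j := ⟨_, rfl⟩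
    rw [← hD] at hsum hR' hb' ⊢
    have hN0 : (0 : ℝ) ≤ D.N := Nat.cast_nonneg _
    have hM1 := average_close (F := M) hN0 (fun v => tn_abs D.le hb' v) T (by omega)
    have hK1 := average_close (F := K) hN0 (fun v => tn_abs D.le D.trace v) T (by omega)
    have hM2 : SS (K := M) T (fun p _ ψ => tn D.m R' b' (hv ψ) * Real.log p) =
        D.N * SS (K := K) T (fun p _ φ => (Nat.card {ψ : 𝓞 M →+* ZMod p //
          ψ.comp (algebraMap (𝓞 K) (𝓞 M)) = φ} : ℝ) * (wt D (hv φ) * Real.log p)) := by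
      rw [← SS_push (K := K) (M := M) T (fun p _ φ => wt D (hv φ) * Real.log p), ← SS_smul]
      refine SS_congr T fun p _ ψ _ => ?_
      rw [tn_base D.le D.trace hb' hR' p ψ, wt_mul, mul_assoc]
    have hK2 : SS (K := K) T (fun p _ φ => tn D.m D.R D.b (hv φ) * Real.log p) =
        D.N * SS (K := K) T (fun p _ φ => wt D (hv φ) * Real.log p) := by
      rw [← SS_smul]
      refine SS_congr T fun p _ φ _ => ?_
      rw [wt_mul, mul_assoc]
    rw [hM2, hdm] at hM1
    rw [hK2, ← hd] at hK1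
    -- the growth
    have hsq : Real.sqrt T ≤ P := by
      rw [Real.sqrt_eq_rpow, hP]
      exact Real.rpow_le_rpow_of_exponent_le hT1 (by linarith)
    have hlogf : Real.log f ≤ P := by
      have h1 : Real.log f ≤ Real.log F :=
        Real.log_le_log (by exact_mod_cast hf1) (by exact_mod_cast hfF)
      have h2 : Real.log F ≤ (T : ℝ) ^ (((3 * k : ℕ) : ℝ)⁻¹) := by
        have h3 : (Real.log F ^ (3 * k)) ^ (((3 * k : ℕ) : ℝ)⁻¹) ≤ (T : ℝ) ^ (((3 * k : ℕ) : ℝ)⁻¹) :=
          Real.rpow_le_rpow (by positivity) hT (by positivity)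
        rwa [Real.pow_rpow_inv_natCast (by linarith) (by omega)] at h3
      have h3 : (T : ℝ) ^ (((3 * k : ℕ) : ℝ)⁻¹) ≤ P := by
        rw [hP]
        refine Real.rpow_le_rpow_of_exponent_le hT1 ?_
        have h4 : (((3 * k : ℕ) : ℝ)⁻¹) ≤ (k : ℝ)⁻¹ := by
          push_cast
          exact inv_anti₀ hk0 (by linarith)
        linarith
      exact h1.trans (h2.trans h3)
    have hlogf0 : 0 ≤ Real.log f := Real.log_natCast_nonneg f
    have hgrow := hT₀ T (by omega)
    rw [h2η, ← hP] at hgrow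
    have hPl : 0 ≤ Real.log T * P := by positivity
    have hmain : |(T : ℝ) * average D.m R' b' T - (T : ℝ) * average D.m D.R D.b T| ≤
        D.N * (m * (T : ℝ) ^ (1 - η)) := by
      have e1 : |D.N * SS (K := K) T (fun p _ φ => (Nat.card {ψ : 𝓞 M →+* ZMod p //
          ψ.comp (algebraMap (𝓞 K) (𝓞 M)) = φ} : ℝ) * (wt D (hv φ) * Real.log p)) -
          D.N * SS (K := K) T (fun p _ φ => wt D (hv φ) * Real.log p)| ≤
          D.N * (m * (d * (B + 2 * Real.log f * Real.log T) + 2 * Real.log f * (d ^ 2 * Real.log T))) := by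
        rw [← mul_sub, abs_mul, Nat.abs_cast]
        exact mul_le_mul_of_nonneg_left hsum hN0
      have q1 : Real.sqrt T * Real.log T ≤ Real.log T * P := by
        rw [mul_comm]
        exact mul_le_mul_of_nonneg_left hsq hlogT
      have q2 : Real.log f * Real.log T ≤ Real.log T * P := by
        rw [mul_comm]
        exact mul_le_mul_of_nonneg_left hlogf hlogT
      have e2 : d * m * (Real.sqrt T * Real.log T) + d * (Real.sqrt T * Real.log T) +
          m * (d * (B + 2 * Real.log f * Real.log T) + 2 * Real.log f * (d ^ 2 * Real.log T)) ≤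
          m * (T : ℝ) ^ (1 - η) := by
        have g1 : d * m * (Real.sqrt T * Real.log T) ≤ d * m * (Real.log T * P) :=
          mul_le_mul_of_nonneg_left q1 (by positivity)
        have g2 : d * (Real.sqrt T * Real.log T) ≤ d * m * (Real.log T * P) := by
          refine mul_le_mul (by nlinarith) q1 (by positivity) (by positivity)
        have g3 : d * (2 * Real.log f * Real.log T) ≤ 2 * d * (Real.log T * P) := by
          have := mul_le_mul_of_nonneg_left q2 (by positivity : 0 ≤ 2 * d)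
          linarith
        have g4 : 2 * Real.log f * (d ^ 2 * Real.log T) ≤ 2 * d ^ 2 * (Real.log T * P) := by
          have := mul_le_mul_of_nonneg_left q2 (by positivity : 0 ≤ 2 * d ^ 2)
          linarith
        have g5 : d * B = d * (1 + k * 2 ^ (k - 1)) * (Real.log T * P) := by rw [hB]; ring
        have g6 : d * (B + 2 * Real.log f * Real.log T) + 2 * Real.log f * (d ^ 2 * Real.log T) ≤
            (d * (1 + k * 2 ^ (k - 1)) + 2 * d + 2 * d ^ 2) * (Real.log T * P) := by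
          rw [mul_add, g5]
          linarith
        have g7 := mul_le_mul_of_nonneg_left g6 (by linarith : 0 ≤ m)
        have g8 := mul_le_mul_of_nonneg_left hgrow (by linarith : 0 ≤ m)
        have g9 : m * (C' * (Real.log T * P)) = d * m * (Real.log T * P) + d * m * (Real.log T * P) +
            m * ((d * (1 + k * 2 ^ (k - 1)) + 2 * d + 2 * d ^ 2) * (Real.log T * P)) := by
          rw [hC']
          ring
        linarith
      have e3 := mul_le_mul_of_nonneg_left e2 hN0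
      have f1 := abs_le.1 hM1
      have f2 := abs_le.1 hK1
      have f3 := abs_le.1 e1
      rw [abs_le]
      constructor <;> nlinarith
    have hfin : |average D.m R' b' T - average D.m D.R D.b T| * T ≤ D.N * (m * (T : ℝ) ^ (1 - η)) := by
      rw [← mul_sub, abs_mul, abs_of_pos hT0] at hmain
      linarith
    have h9 : (D.N : ℝ) * (m * (T : ℝ) ^ (1 - η)) = D.N * (m * (T : ℝ) ^ (-η)) * T := by
      have : (T : ℝ) ^ (1 - η) = (T : ℝ) ^ (-η) * T := by
        rw [← Real.rpow_add_one hT0.ne']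
        congr 1
        ring
      rw [this]
      ring
    rw [h9] at hfin
    rw [← hm]
    exact le_of_mul_le_mul_right hfin hT0

end

end Pool.Agent.H40AB
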