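import Mathlib
import Pool.Agent.Helper112.MultLS

/-! The large sieve for weighted character sums over the primes, through `r`-th powers (after helper386). -/

set_option autoImplicit false

namespace Pool.Agent.H40AB

open Finset
open scoped Nat

/-- the number of `r`-tuples from `E` with product `n` -/
def cc (E : Finset ℕ) (r n : ℕ) : ℕ :=
  #{v ∈ Fintype.piFinset (fun _ : Fin r => E) | ∏ i, v i = n}

/-- the weighted number -/
noncomputable def cw (E : Finset ℕ) (w : ℕ → ℝ) (r n : ℕ) : ℝ :=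
  ∑ v ∈ (Fintype.piFinset (fun _ : Fin r => E)).filter (fun v => ∏ i, v i = n), ∏ i, w (v i)

lemma maps_to (E : Finset ℕ) (y r : ℕ) (hE : ∀ q ∈ E, q.Prime ∧ q ≤ y) :
    ∀ v ∈ Fintype.piFinset (fun _ : Fin r => E), ∏ i, v i ∈ Icc 1 (y ^ r) := by
  intro v hv
  rw [Fintype.mem_piFinset] at hv
  rw [mem_Icc]
  refine ⟨Nat.one_le_iff_ne_zero.mpr (prod_ne_zero_iff.mpr fun i _ => (hE _ (hv i)).1.ne_zero), ?_⟩
  calc ∏ i, v i ≤ ∏ _i : Fin r, y := prod_le_prod' fun i _ => (hE _ (hv i)).2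
    _ = y ^ r := by simp

lemma sum_pow_eq (E : Finset ℕ) (w : ℕ → ℝ) (y r : ℕ) (hE : ∀ q ∈ E, q.Prime ∧ q ≤ y) (p : ℕ)
    (χ : DirichletCharacter ℂ p) :
    (∑ q ∈ E, (w q : ℂ) * χ (q : ZMod p)) ^ r = ∑ n ∈ Icc 1 (y ^ r), (cw E w r n : ℂ) * χ (n : ZMod p) := by
  have h1 : (∑ q ∈ E, (w q : ℂ) * χ (q : ZMod p)) ^ r =
      ∑ v ∈ Fintype.piFinset (fun _ : Fin r => E), ∏ i, ((w (v i) : ℂ) * χ (v i : ZMod p)) := by
    have := Finset.prod_univ_sum (fun _ : Fin r => E) (fun _ (q : ℕ) => (w q : ℂ) * χ (q : ZMod p))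
    rw [← this]
    simp
  have h2 : ∀ v ∈ Fintype.piFinset (fun _ : Fin r => E),
      ∏ i, ((w (v i) : ℂ) * χ (v i : ZMod p)) =
        ((∏ i, w (v i) : ℝ) : ℂ) * χ ((∏ i, v i : ℕ) : ZMod p) := by
    intro v _
    rw [prod_mul_distrib, Nat.cast_prod, map_prod, Complex.ofReal_prod]
  rw [h1, sum_congr rfl h2, ← Finset.sum_fiberwise_of_maps_to (maps_to E y r hE)]
  apply sum_congr rfl
  intro n _
  unfold cw
  rw [Complex.ofReal_sum, sum_mul]
  refine sum_congr rfl fun v hv => ?_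
  rw [mem_filter] at hv
  rw [hv.2]

lemma cw_abs (E : Finset ℕ) (w : ℕ → ℝ) (hw : ∀ q ∈ E, |w q| ≤ 1) (r n : ℕ) :
    |cw E w r n| ≤ cc E r n := by
  unfold cw cc
  refine (abs_sum_le_sum_abs _ _).trans ?_
  refine (sum_le_sum (g := fun _ => (1 : ℝ)) fun v hv => ?_).trans ?_
  · rw [mem_filter, Fintype.mem_piFinset] at hv
    rw [abs_prod]
    exact prod_le_one (fun i _ => abs_nonneg _) (fun i _ => hw _ (hv.1 i))
  · rw [sum_const, nsmul_eq_mul, mul_one]

lemma cc_le (E : Finset ℕ) (r n : ℕ) (hE : ∀ q ∈ E, q.Prime) : cc E r n ≤ r ! := by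
  classical
  unfold cc
  set S := (Fintype.piFinset (fun _ : Fin r => E)).filter (fun v => ∏ i, v i = n) with hS
  have key : ∀ v ∈ S, List.Perm (List.ofFn v) n.primeFactorsList := by
    intro v hv
    rw [hS, mem_filter, Fintype.mem_piFinset] at hv
    apply Nat.primeFactorsList_unique
    · rw [List.prod_ofFn]; exact hv.2
    · intro p hp
      rw [List.mem_ofFn] at hp
      obtain ⟨i, rfl⟩ := hp
      exact hE _ (hv.1 i)
  rcases S.eq_empty_or_nonempty with h | ⟨v0, hv0⟩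
  · rw [h]; simp
  · have hlen : n.primeFactorsList.length = r := by
      rw [← (key v0 hv0).length_eq, List.length_ofFn]
    calc #S ≤ #(n.primeFactorsList.permutations.toFinset) := by
          apply card_le_card_of_injOn (fun v => List.ofFn v)
          · intro v hv
            simp only [mem_coe, List.mem_toFinset, List.mem_permutations]
            exact key v hv
          · intro v _ w _ hvw
            exact List.ofFn_injective hvw
      _ ≤ n.primeFactorsList.permutations.length := List.toFinset_card_le _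
      _ = r ! := by rw [List.length_permutations, hlen]

lemma sum_cc (E : Finset ℕ) (y r : ℕ) (hE : ∀ q ∈ E, q.Prime ∧ q ≤ y) :
    ∑ n ∈ Icc 1 (y ^ r), cc E r n = #E ^ r := by
  have := Finset.card_eq_sum_card_fiberwise (maps_to E y r hE)
  unfold cc
  rw [← this]
  simp

lemma sum_cw_sq (E : Finset ℕ) (w : ℕ → ℝ) (hw : ∀ q ∈ E, |w q| ≤ 1) (y r : ℕ)
    (hE : ∀ q ∈ E, q.Prime ∧ q ≤ y) :
    ∑ n ∈ Icc 1 (y ^ r), ‖(cw E w r n : ℂ)‖ ^ 2 ≤ (r ! : ℝ) * (#E : ℝ) ^ r := by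
  have h1 : ((∑ n ∈ Icc 1 (y ^ r), cc E r n : ℕ) : ℝ) = (#E : ℝ) ^ r := by
    rw [sum_cc E y r hE]; push_cast; rfl
  rw [← h1, Nat.cast_sum, mul_sum]
  apply sum_le_sum
  intro n _
  rw [Complex.norm_real, Real.norm_eq_abs, sq]
  have h2 := cw_abs E w hw r n
  have h3 : (cc E r n : ℝ) ≤ r ! := by exact_mod_cast cc_le E r n fun q hq => (hE q hq).1
  exact mul_le_mul (h2.trans h3) h2 (abs_nonneg _) (by positivity)

open Classical in
/-- the primitive characters of conductor at most `F` with a large sum -/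
noncomputable def bad (E : Finset ℕ) (w : ℕ → ℝ) (M : ℝ) (F : ℕ) : Finset (Σ f : ℕ, DirichletCharacter ℂ f) :=
  (Icc 1 F).sigma fun f => (univ : Finset (DirichletCharacter ℂ f)).filter fun χ =>
    χ.IsPrimitive ∧ M < ‖∑ q ∈ E, (w q : ℂ) * χ (q : ZMod f)‖

theorem card_bad (E : Finset ℕ) (w : ℕ → ℝ) (hw : ∀ q ∈ E, |w q| ≤ 1) (y r F : ℕ) (M : ℝ) (hM : 0 < M)
    (hE : ∀ q ∈ E, q.Prime ∧ q ≤ y) (hF : F ^ 2 ≤ y ^ r) :
    ((bad E w M F).card : ℝ) * M ^ (2 * r) ≤ 12 * (y : ℝ) ^ r * (r ! : ℝ) * (#E : ℝ) ^ r := by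
  classical
  have hLS := Helper112.mult_large_sieve (y ^ r) F (fun n => (cw E w r n : ℂ))
  have hlow : ((bad E w M F).card : ℝ) * M ^ (2 * r) ≤
      ∑ f ∈ Icc 1 F, ((f : ℝ) / (Nat.totient f : ℝ)) *
      ∑ χ ∈ (univ : Finset (DirichletCharacter ℂ f)).filter (fun χ => χ.IsPrimitive),
        ‖∑ n ∈ Icc 1 (y ^ r), (cw E w r n : ℂ) * χ (n : ZMod f)‖ ^ 2 := by
    unfold bad
    rw [card_sigma, Nat.cast_sum, sum_mul]
    refine sum_le_sum fun f hf => ?_
    have hf1 := (mem_Icc.1 hf).1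
    have h3 : (1 : ℝ) ≤ (f : ℝ) / (Nat.totient f : ℝ) := by
      have h0 : (0 : ℝ) < (Nat.totient f : ℝ) := by
        exact_mod_cast Nat.totient_pos.mpr (by omega)
      rw [le_div_iff₀ h0, one_mul]
      exact_mod_cast Nat.totient_le f
    refine le_trans ?_ (le_mul_of_one_le_left (sum_nonneg fun _ _ => sq_nonneg _) h3)
    rw [← nsmul_eq_mul, ← sum_const]
    refine (sum_le_sum fun χ hχ => ?_).trans (sum_le_sum_of_subset_of_nonneg ?_ fun _ _ _ => sq_nonneg _)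
    · rw [mem_filter] at hχ
      rw [← sum_pow_eq E w y r hE f χ, norm_pow, ← pow_mul, mul_comm r 2]
      exact pow_le_pow_left₀ hM.le hχ.2.2.le _
    · intro χ hχ
      rw [mem_filter] at hχ ⊢
      exact ⟨hχ.1, hχ.2.1⟩
  have hx' : ((F : ℝ)) ^ 2 ≤ (y : ℝ) ^ r := by exact_mod_cast hF
  calc ((bad E w M F).card : ℝ) * M ^ (2 * r)
      ≤ 6 * (((y ^ r : ℕ) : ℝ) + (F : ℝ) ^ 2) *
        ∑ n ∈ Icc 1 (y ^ r), ‖(cw E w r n : ℂ)‖ ^ 2 := by
        refine hlow.trans ?_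
        convert hLS using 1
    _ ≤ 6 * ((y : ℝ) ^ r + (y : ℝ) ^ r) * ((r ! : ℝ) * (#E : ℝ) ^ r) := by
        apply mul_le_mul _ (sum_cw_sq E w hw y r hE) (sum_nonneg fun _ _ => sq_nonneg _) (by positivity)
        push_cast
        linarith
    _ = 12 * (y : ℝ) ^ r * (r ! : ℝ) * (#E : ℝ) ^ r := by ring

end Pool.Agent.H40AB
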