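import Pool.Agent.H40AB.Ex
import Pool.Agent.H40AB.Cnt
import Pool.Agent.H40AB.Defs

/-! Tauberian averages over the subfields of cyclotomic extensions: the theorem. -/

set_option autoImplicit false

namespace Pool.Agent.H40AB

open NumberField IsDedekindDomain Polynomial Finset
open Pool.Agent.H40SY
open Pool.Agent.N842.HS (hv absNorm_hv hv_inj hv_surj VT mem_VT hom_finite cf)
open Pool.Agent.W353.SP (IsTrace average)

section
variable {K : Type} [Field K] [NumberField K]

/-- the weights -/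
noncomputable def WW (D : VarietyData K) (p : ℕ) : ℝ :=
  SP (K := K) (fun _ _ φ => wt D (hv φ)) p / Module.finrank ℚ K

theorem WW_abs (D : VarietyData K) (p : ℕ) : |WW D p| ≤ 1 := by
  have hd : (0 : ℝ) < Module.finrank ℚ K := by exact_mod_cast Module.finrank_pos
  unfold WW
  rw [abs_div, Nat.abs_cast, div_le_one hd]
  by_cases hp : p.Prime
  · have : Fact p.Prime := ⟨hp⟩
    have : Finite (𝓞 K →+* ZMod p) := hom_finite (𝓞 K) p
    let _ : Fintype (𝓞 K →+* ZMod p) := Fintype.ofFinite _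
    rw [SP_eq]
    refine (abs_sum_le_sum_abs _ _).trans ?_
    refine (sum_le_sum (g := fun _ => (1 : ℝ)) fun φ _ => wt_abs D _).trans ?_
    rw [sum_const, card_univ, nsmul_eq_mul, mul_one]
    exact hom_le K p
  · unfold SP
    rw [dif_neg hp, abs_zero]
    exact hd.le

/-- the number of the prime divisors -/
theorem card_dvd (f T : ℕ) (hf : 1 ≤ f) :
    (((PP T).filter fun p => p ∣ f).card : ℝ) ≤ 2 * Real.log f := by
  have h1 : (PP T).filter (fun p => p ∣ f) ⊆ f.primeFactors := by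
    intro p hp
    rw [mem_filter, mem_PP] at hp
    exact Nat.mem_primeFactors.2 ⟨hp.1.2, hp.2, by omega⟩
  have h2 : 2 ^ f.primeFactors.card ≤ ∏ p ∈ f.primeFactors, p :=
    Finset.pow_card_le_prod _ _ _ fun p hp => (Nat.prime_of_mem_primeFactors hp).two_le
  have h3 : ∏ p ∈ f.primeFactors, p ≤ f := Nat.le_of_dvd (by omega) (Nat.prod_primeFactors_dvd f)
  have h4 : (2 : ℝ) ^ f.primeFactors.card ≤ f := by exact_mod_cast h2.trans h3
  have h5 : (f.primeFactors.card : ℝ) * Real.log 2 ≤ Real.log f := by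
    rw [← Real.log_pow]
    exact Real.log_le_log (by positivity) h4
  have h6 : (((PP T).filter fun p => p ∣ f).card : ℝ) ≤ f.primeFactors.card := by
    exact_mod_cast card_le_card h1
  have h7 : (0.6931471803 : ℝ) < Real.log 2 := Real.log_two_gt_d9
  have h8 : (0 : ℝ) ≤ f.primeFactors.card := Nat.cast_nonneg _
  nlinarith

/-- **The sum over the primes of degree one.** -/
theorem sum_close {f : ℕ} [NeZero f] {ζ : AlgebraicClosure K} (hζ : IsPrimitiveRoot ζ f)
    {M : IntermediateField K (AlgebraicClosure K)} [NumberField M]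
    (hM : M ≤ IntermediateField.adjoin K {ζ}) (D : VarietyData K) (T : ℕ) (B : ℝ) (hB0 : 0 ≤ B)
    (hB : ∀ χ : DirichletCharacter ℂ f, χ ∈ XH (HM hζ M) → χ ∉ XH (GG (K := K) hζ) →
      ‖∑ q ∈ PP T, ((WW D q * Real.log q : ℝ) : ℂ) * χ.primitiveCharacter (q : ZMod χ.conductor)‖ ≤ B) :
    |SS (K := K) T (fun p _ φ => (Nat.card {ψ : 𝓞 M →+* ZMod p //
        ψ.comp (algebraMap (𝓞 K) (𝓞 M)) = φ} : ℝ) * (wt D (hv φ) * Real.log p)) -
      SS (K := K) T (fun p _ φ => wt D (hv φ) * Real.log p)| ≤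
      Module.finrank K M * (Module.finrank ℚ K * (B + 2 * Real.log f * Real.log T) +
        2 * Real.log f * (Module.finrank ℚ K ^ 2 * Real.log T)) := by
  classical
  have hf : 1 ≤ f := Nat.pos_of_ne_zero (NeZero.ne f)
  obtain ⟨d, hd⟩ : ∃ d : ℝ, d = Module.finrank ℚ K := ⟨_, rfl⟩
  obtain ⟨m, hm⟩ : ∃ m : ℝ, m = Module.finrank K M := ⟨_, rfl⟩
  have hd1 : 1 ≤ d := by
    rw [hd]
    exact_mod_cast Module.finrank_pos (R := ℚ) (M := K)
  have hm1 : 1 ≤ m := by
    rw [hm]
    have : FiniteDimensional K M := Module.Finite.of_restrictScalars_finite ℚ K M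
    exact_mod_cast Module.finrank_pos (R := K) (M := M)
  have hdm : (Module.finrank ℚ M : ℝ) = d * m := by
    rw [hd, hm, ← Nat.cast_mul, Module.finrank_mul_finrank]
  have hlogT : 0 ≤ Real.log T := Real.log_natCast_nonneg T
  have hlogf : 0 ≤ Real.log f := Real.log_natCast_nonneg f
  obtain ⟨S, hS⟩ : ∃ S : Finset (DirichletCharacter ℂ f), S = XH (HM hζ M) \ XH (GG (K := K) hζ) := ⟨_, rfl⟩
  obtain ⟨c, hc⟩ : ∃ c : ℝ, c = (Nat.card (GG (K := K) hζ) : ℝ) / Nat.card (ZMod f)ˣ := ⟨_, rfl⟩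
  have hc0 : 0 ≤ c := by rw [hc]; positivity
  -- the degree
  have hcS : c * (S.card : ℝ) ≤ m := by
    have h1 : (S.card : ℝ) ≤ ((XH (HM hζ M)).card : ℝ) := by
      rw [hS]
      exact_mod_cast card_le_card sdiff_subset
    have h2 : c * ((XH (HM hζ M)).card : ℝ) = m := by
      rw [card_XH, hc]
      have h3 : (Nat.card (ZMod f)ˣ : ℝ) ≠ 0 := by
        have : Nat.card (ZMod f)ˣ ≠ 0 := Nat.card_pos.ne'
        exact_mod_cast this
      have h4 : (Nat.card (HM hζ M) : ℝ) ≠ 0 := by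
        have : Nat.card (HM hζ M) ≠ 0 := Nat.card_pos.ne'
        exact_mod_cast this
      have h5 : (Nat.card (GG (K := K) hζ) : ℝ) = m * Nat.card (HM hζ M) := by
        rw [← card_emb hζ hM, hm]
        push_cast
        have : FiniteDimensional K M := Module.Finite.of_restrictScalars_finite ℚ K M
        rw [Nat.card_eq_fintype_card, AlgHom.card]
      rw [h5]
      field_simp
    calc c * (S.card : ℝ) ≤ c * ((XH (HM hζ M)).card : ℝ) := mul_le_mul_of_nonneg_left h1 hc0
      _ = m := h2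
  -- the local identity
  have hloc : ∀ (p : ℕ) (hp : Fact p.Prime), ¬ p ∣ f → ∀ φ : 𝓞 K →+* ZMod p,
      ((Nat.card {ψ : 𝓞 M →+* ZMod p // ψ.comp (algebraMap (𝓞 K) (𝓞 M)) = φ} : ℂ)) - 1 =
        (c : ℂ) * ∑ χ ∈ S, χ (p : ZMod f) := by
    intro p hp hpf φ
    obtain ⟨u, hu1, hu2, hu3⟩ := card_over hζ hM hpf φ
    rw [hu3, ← sum_sdiff_XH (HM_le hζ M) u hu2, ← hu1, ← hS, hc]
    push_cast
    rfl
  -- the function
  obtain ⟨N, hN⟩ : ∃ N : ∀ (p : ℕ) [Fact p.Prime], (𝓞 K →+* ZMod p) → ℝ, N = fun p _ φ =>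
      (Nat.card {ψ : 𝓞 M →+* ZMod p // ψ.comp (algebraMap (𝓞 K) (𝓞 M)) = φ} : ℝ) := ⟨_, rfl⟩
  have hNle : ∀ (p : ℕ) (hp : Fact p.Prime) (φ : 𝓞 K →+* ZMod p), |N p φ - 1| ≤ d * m := by
    intro p hp φ
    have h1 : N p φ ≤ d * m := by
      rw [hN, ← hdm]
      show (Nat.card {ψ : 𝓞 M →+* ZMod p // ψ.comp (algebraMap (𝓞 K) (𝓞 M)) = φ} : ℝ) ≤ _
      exact_mod_cast card_ext_le (M := M) p φ
    have h2 : 0 ≤ N p φ := by
      rw [hN]
      exact Nat.cast_nonneg _
    have h3 : 1 ≤ d * m := by nlinarith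
    rw [abs_le]
    constructor <;> linarith
  have e1 : SS (K := K) T (fun p _ φ => (Nat.card {ψ : 𝓞 M →+* ZMod p //
        ψ.comp (algebraMap (𝓞 K) (𝓞 M)) = φ} : ℝ) * (wt D (hv φ) * Real.log p)) -
      SS (K := K) T (fun p _ φ => wt D (hv φ) * Real.log p) =
      SS (K := K) T (fun p _ φ => (N p φ - 1) * (wt D (hv φ) * Real.log p)) := by
    have h1 : SS (K := K) T (fun p _ φ => (N p φ - 1) * (wt D (hv φ) * Real.log p)) =
        SS (K := K) T (fun p _ φ => N p φ * (wt D (hv φ) * Real.log p) +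
          (-1) * (wt D (hv φ) * Real.log p)) := SS_congr T fun p _ φ _ => by ring
    rw [h1, SS_add, SS_smul, hN]
    ring
  rw [e1]
  unfold SS
  rw [← Finset.sum_filter_add_sum_filter_not (PP T) (fun p => p ∣ f)]
  -- the divisors of `f`
  have hdiv : |∑ p ∈ (PP T).filter (fun p => p ∣ f),
      SP (fun p _ φ => (N p φ - 1) * (wt D (hv φ) * Real.log p)) p| ≤
      2 * Real.log f * (d * (d * m * Real.log T)) := by
    refine (abs_sum_le_sum_abs _ _).trans ?_
    refine (sum_le_sum (g := fun _ => d * (d * m * Real.log T)) fun p hp => ?_).trans ?_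
    · rw [mem_filter, mem_PP] at hp
      have : Fact p.Prime := ⟨hp.1.2⟩
      have : Finite (𝓞 K →+* ZMod p) := hom_finite (𝓞 K) p
      let _ : Fintype (𝓞 K →+* ZMod p) := Fintype.ofFinite _
      rw [SP_eq]
      refine (abs_sum_le_sum_abs _ _).trans ?_
      have hp0 : (1 : ℝ) < p := by exact_mod_cast hp.1.2.one_lt
      refine (sum_le_sum (g := fun _ => d * m * Real.log T) fun φ _ => ?_).trans ?_
      · rw [abs_mul, abs_mul]
        have h1 : |Real.log p| ≤ Real.log T := by
          rw [abs_of_nonneg (Real.log_nonneg hp0.le)]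
          exact Real.log_le_log (by linarith) (by exact_mod_cast hp.1.1)
        calc |N p φ - 1| * (|wt D (hv φ)| * |Real.log p|) ≤ (d * m) * (1 * Real.log T) := by
              apply mul_le_mul (hNle p _ φ) _ (by positivity) (by positivity)
              exact mul_le_mul (wt_abs D _) h1 (abs_nonneg _) zero_le_one
          _ = _ := by ring
      · rw [sum_const, card_univ, nsmul_eq_mul]
        apply mul_le_mul_of_nonneg_right _ (by positivity)
        rw [hd]
        exact hom_le K p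
    · rw [sum_const, nsmul_eq_mul]
      exact mul_le_mul_of_nonneg_right (card_dvd f T hf) (by positivity)
  -- the other primes
  have hmain : |∑ p ∈ (PP T).filter (fun p => ¬ p ∣ f),
      SP (fun p _ φ => (N p φ - 1) * (wt D (hv φ) * Real.log p)) p| ≤
      m * (d * (B + 2 * Real.log f * Real.log T)) := by
    have h1 : ((∑ p ∈ (PP T).filter (fun p => ¬ p ∣ f),
        SP (fun p _ φ => (N p φ - 1) * (wt D (hv φ) * Real.log p)) p : ℝ) : ℂ) =
        ((d * c : ℝ) : ℂ) * ∑ χ ∈ S, ∑ p ∈ (PP T).filter (fun p => ¬ p ∣ f),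
          ((WW D p * Real.log p : ℝ) : ℂ) * χ (p : ZMod f) := by
      rw [Complex.ofReal_sum, sum_comm, mul_sum]
      refine sum_congr rfl fun p hp => ?_
      rw [mem_filter, mem_PP] at hp
      have hpr : Fact p.Prime := ⟨hp.1.2⟩
      have : Finite (𝓞 K →+* ZMod p) := hom_finite (𝓞 K) p
      let _ : Fintype (𝓞 K →+* ZMod p) := Fintype.ofFinite _
      rw [SP_eq, Complex.ofReal_sum, ← mul_sum]
      have h2 : ∀ φ : 𝓞 K →+* ZMod p, (((N p φ - 1) * (wt D (hv φ) * Real.log p) : ℝ) : ℂ) =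
          ((c : ℂ) * ∑ χ ∈ S, χ (p : ZMod f)) * ((wt D (hv φ) : ℂ) * (Real.log p : ℂ)) := by
        intro φ
        rw [← hloc p hpr hp.2 φ, hN]
        push_cast
        rfl
      rw [sum_congr rfl fun φ _ => h2 φ, ← mul_sum, ← sum_mul]
      have h3 : ((d * WW D p : ℝ) : ℂ) = ∑ φ : 𝓞 K →+* ZMod p, (wt D (hv φ) : ℂ) := by
        unfold WW
        rw [SP_eq, ← hd, mul_div_cancel₀ _ (by linarith : d ≠ 0), Complex.ofReal_sum]
      rw [← h3]
      push_cast
      ring
    have h2 : ∀ χ ∈ S, ‖∑ p ∈ (PP T).filter (fun p => ¬ p ∣ f),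
        ((WW D p * Real.log p : ℝ) : ℂ) * χ (p : ZMod f)‖ ≤ B + 2 * Real.log f * Real.log T := by
      intro χ hχ
      rw [hS, mem_sdiff] at hχ
      have h3 : ∑ p ∈ (PP T).filter (fun p => ¬ p ∣ f), ((WW D p * Real.log p : ℝ) : ℂ) * χ (p : ZMod f) =
          ∑ p ∈ (PP T).filter (fun p => ¬ p ∣ f),
            ((WW D p * Real.log p : ℝ) : ℂ) * χ.primitiveCharacter (p : ZMod χ.conductor) := by
        refine sum_congr rfl fun p hp => ?_
        rw [mem_filter, mem_PP] at hp
        congr 1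
        have h4 : IsCoprime ((p : ℕ) : ℤ) (f : ℤ) :=
          Nat.isCoprime_iff_coprime.2 ((Nat.Prime.coprime_iff_not_dvd hp.1.2).2 hp.2)
        have h5 := χ.primitiveCharacter_apply_of_isCoprime h4
        rw [Int.cast_natCast, Int.cast_natCast] at h5
        exact h5.symm
      have h4 := Finset.sum_filter_add_sum_filter_not (PP T) (fun p => p ∣ f)
        (fun p => ((WW D p * Real.log p : ℝ) : ℂ) * χ.primitiveCharacter (p : ZMod χ.conductor))
      rw [h3, eq_sub_of_add_eq' h4]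
      refine (norm_sub_le _ _).trans (add_le_add (hB χ hχ.1 hχ.2) ?_)
      refine (norm_sum_le _ _).trans ?_
      refine (sum_le_sum (g := fun _ => Real.log T) fun p hp => ?_).trans ?_
      · rw [mem_filter, mem_PP] at hp
        have hp0 : (1 : ℝ) < p := by exact_mod_cast hp.1.2.one_lt
        have h5 : |Real.log p| ≤ Real.log T := by
          rw [abs_of_nonneg (Real.log_nonneg hp0.le)]
          exact Real.log_le_log (by linarith) (by exact_mod_cast hp.1.1)
        rw [norm_mul, Complex.norm_real, Real.norm_eq_abs, abs_mul]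
        calc |WW D p| * |Real.log p| * ‖χ.primitiveCharacter (p : ZMod χ.conductor)‖ ≤
              1 * Real.log T * 1 := by
              apply mul_le_mul _ (DirichletCharacter.norm_le_one _ _) (norm_nonneg _) (by linarith)
              exact mul_le_mul (WW_abs D p) h5 (abs_nonneg _) zero_le_one
          _ = Real.log T := by ring
      · rw [sum_const, nsmul_eq_mul]
        exact mul_le_mul_of_nonneg_right (card_dvd f T hf) hlogT
    have h3 : |∑ p ∈ (PP T).filter (fun p => ¬ p ∣ f),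
        SP (fun p _ φ => (N p φ - 1) * (wt D (hv φ) * Real.log p)) p| =
        ‖((∑ p ∈ (PP T).filter (fun p => ¬ p ∣ f),
          SP (fun p _ φ => (N p φ - 1) * (wt D (hv φ) * Real.log p)) p : ℝ) : ℂ)‖ := by
      rw [Complex.norm_real, Real.norm_eq_abs]
    rw [h3, h1, norm_mul, Complex.norm_real, Real.norm_eq_abs, abs_of_nonneg (by positivity)]
    have h4 : ‖∑ χ ∈ S, ∑ p ∈ (PP T).filter (fun p => ¬ p ∣ f),
        ((WW D p * Real.log p : ℝ) : ℂ) * χ (p : ZMod f)‖ ≤
        S.card * (B + 2 * Real.log f * Real.log T) := by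
      refine (norm_sum_le _ _).trans ((sum_le_sum h2).trans ?_)
      rw [sum_const, nsmul_eq_mul]
    calc d * c * _ ≤ d * c * (S.card * (B + 2 * Real.log f * Real.log T)) :=
          mul_le_mul_of_nonneg_left h4 (by positivity)
      _ = (c * S.card) * (d * (B + 2 * Real.log f * Real.log T)) := by ring
      _ ≤ m * (d * (B + 2 * Real.log f * Real.log T)) :=
          mul_le_mul_of_nonneg_right hcS (by positivity)
  rw [← hd, ← hm]
  refine (abs_add_le _ _).trans ?_
  have h9 : 2 * Real.log f * (d * (d * m * Real.log T)) = m * (2 * Real.log f * (d ^ 2 * Real.log T)) := by ring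
  rw [mul_add]
  linarith

end

end Pool.Agent.H40AB
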